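import Pool.Agent.Helper82K9.RQ.RQ1

set_option autoImplicit false

/-! The second moment with arbitrary weights over families of functions `a₀ + a₁ n + G(n)`, at one scale; adapted from
`Pool.Agent.TH892.RT` (starting files). -/

namespace Pool.Agent.Helper82K9.RQ

open Finset
open Pool.Agent.W110.HV (mul_conj_norm)
open Pool.Agent.TH892.RT (shift1 shift2 inner far_sum near_card cardI val_sum expand Bx pv card_mult card_val sum_box pv_cons card_Bx)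

/-- the correlation of the values at `n` and `m` -/
lemma pair (F : ℤ → ℂ) (hb : ∀ u, ‖F u‖ ≤ 1) (H x W M : ℕ) (hW : 1 ≤ W) (hM : 1 ≤ M) (n m : ℕ) (hn : n ≤ x)
    (hnm : n ≠ m) (G G' : ℤ) :
    ‖∑ a ∈ Icc (-(H : ℤ)) H, ∑ b ∈ Icc (-(H : ℤ)) H, F (a + b * n + G) * (starRingEnd ℂ) (F (a + b * m + G'))‖ ≤
      (2 * H + 1) * (4 * ((W : ℝ) + M * x) + 4 * M) +
      ∑ a ∈ Icc (-(H : ℤ)) H, ∑ b ∈ Icc (-(H : ℤ)) H,
        ((1 / (W : ℝ)) * ∑ r ∈ range ((n : ℤ) - m).natAbs, ‖CL F W (a + b * n + G) ((n : ℤ) - m).natAbs r‖ +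
          4 * ((W : ℝ) / ((n : ℤ) - m).natAbs) / M) := by
  set q := ((n : ℤ) - m).natAbs with hq
  set k : ℤ → ℂ := fun a => (starRingEnd ℂ) (F a) with hk
  have hFn : ∀ a, ‖F a‖ ≤ 1 := hb
  have hkn : ∀ a, ‖k a‖ ≤ 1 := fun a => by rw [hk]; simp only [RCLike.norm_conj]; exact hb a
  have hWr : (0 : ℝ) < W := by exact_mod_cast hW
  have hMr : (0 : ℝ) < M := by exact_mod_cast hM
  set φ : ℤ → ℤ → ℂ := fun a b => F (a + b * n + G) * k (a + b * m + G') with hφ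
  have hφn : ∀ a b, ‖φ a b‖ ≤ 1 := by
    intro a b
    rw [hφ]
    simp only [norm_mul]
    exact mul_le_one₀ (hFn _) (norm_nonneg _) (hkn _)
  set S := ∑ a ∈ Icc (-(H : ℤ)) H, ∑ b ∈ Icc (-(H : ℤ)) H, φ a b with hS
  have hcM : (Icc (1 : ℤ) M).card = M := by
    rw [Int.card_Icc]; omega
  -- the average over the shifts
  have e1 : (W : ℂ) * M * S = ∑ t ∈ Icc 1 W, ∑ s ∈ Icc (1 : ℤ) M,
      (S - ∑ a ∈ Icc (-(H : ℤ)) H, ∑ b ∈ Icc (-(H : ℤ)) H, φ (a + ((t : ℤ) - s * n)) (b + s)) +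
      ∑ a ∈ Icc (-(H : ℤ)) H, ∑ b ∈ Icc (-(H : ℤ)) H, ∑ t ∈ Icc 1 W, ∑ s ∈ Icc (1 : ℤ) M,
        F (a + b * n + G + t) * k (a + b * m + G' + t - s * ((n : ℤ) - m)) := by
    have e2 : ∑ a ∈ Icc (-(H : ℤ)) H, ∑ b ∈ Icc (-(H : ℤ)) H, ∑ t ∈ Icc 1 W, ∑ s ∈ Icc (1 : ℤ) M,
        F (a + b * n + G + t) * k (a + b * m + G' + t - s * ((n : ℤ) - m)) =
        ∑ t ∈ Icc 1 W, ∑ s ∈ Icc (1 : ℤ) M,
          ∑ a ∈ Icc (-(H : ℤ)) H, ∑ b ∈ Icc (-(H : ℤ)) H, φ (a + ((t : ℤ) - s * n)) (b + s) := by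
      have e3 : ∀ a ∈ Icc (-(H : ℤ)) H, ∑ b ∈ Icc (-(H : ℤ)) H, ∑ t ∈ Icc 1 W, ∑ s ∈ Icc (1 : ℤ) M,
          F (a + b * n + G + t) * k (a + b * m + G' + t - s * ((n : ℤ) - m)) =
          ∑ t ∈ Icc 1 W, ∑ s ∈ Icc (1 : ℤ) M, ∑ b ∈ Icc (-(H : ℤ)) H, φ (a + ((t : ℤ) - s * n)) (b + s) := by
        intro a _
        rw [sum_comm]
        refine sum_congr rfl fun t _ => ?_
        rw [sum_comm]
        refine sum_congr rfl fun s _ => sum_congr rfl fun b _ => ?_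
        rw [hφ]
        simp only
        congr 2 <;> ring
      rw [sum_congr rfl e3, sum_comm]
      refine sum_congr rfl fun t _ => ?_
      rw [sum_comm]
    rw [e2]
    simp only [sum_sub_distrib, sum_const, hcM, Nat.card_Icc, nsmul_eq_mul, Nat.add_sub_cancel]
    ring
  have b1 : ∀ t ∈ Icc 1 W, ∀ s ∈ Icc (1 : ℤ) M,
      ‖S - ∑ a ∈ Icc (-(H : ℤ)) H, ∑ b ∈ Icc (-(H : ℤ)) H, φ (a + ((t : ℤ) - s * n)) (b + s)‖ ≤
        (2 * H + 1) * (4 * ((W : ℝ) + M * x) + 4 * M) := by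
    intro t ht s hs
    rw [mem_Icc] at ht hs
    refine (shift2 φ hφn H ((t : ℤ) - s * n) s).trans ?_
    have hs0 : (0 : ℝ) ≤ (s : ℝ) := by exact_mod_cast (by omega : (0 : ℤ) ≤ s)
    have hsM : (s : ℝ) ≤ M := by exact_mod_cast hs.2
    have htW : (t : ℝ) ≤ W := by exact_mod_cast ht.2
    have hnx : (n : ℝ) ≤ x := by exact_mod_cast hn
    have h1 : |(((t : ℤ) - s * n : ℤ) : ℝ)| ≤ (W : ℝ) + M * x := by
      push_cast
      refine (abs_sub _ _).trans ?_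
      rw [abs_of_nonneg (by positivity : (0 : ℝ) ≤ (t : ℝ)), abs_of_nonneg (by positivity : (0 : ℝ) ≤ (s : ℝ) * n)]
      gcongr
    have h2 : |(s : ℝ)| ≤ M := by rw [abs_of_nonneg hs0]; exact hsM
    gcongr
  have b2 : ∀ a b : ℤ, ‖∑ t ∈ Icc 1 W, ∑ s ∈ Icc (1 : ℤ) M,
        F (a + b * n + G + t) * k (a + b * m + G' + t - s * ((n : ℤ) - m))‖ ≤
      M * ∑ r ∈ range q, ‖CL F W (a + b * n + G) q r‖ + W * (4 * ((W : ℝ) / q)) := by
    intro a b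
    exact inner F k hFn hkn (a + b * n + G) (a + b * m + G') ((n : ℤ) - m) (by omega) W M
  have b3 : (W : ℝ) * M * ‖S‖ ≤ W * M * ((2 * H + 1) * (4 * ((W : ℝ) + M * x) + 4 * M)) +
      ∑ a ∈ Icc (-(H : ℤ)) H, ∑ b ∈ Icc (-(H : ℤ)) H,
        (M * ∑ r ∈ range q, ‖CL F W (a + b * n + G) q r‖ + W * (4 * ((W : ℝ) / q))) := by
    have : (W : ℝ) * M * ‖S‖ = ‖(W : ℂ) * M * S‖ := by
      rw [norm_mul, norm_mul, Complex.norm_natCast, Complex.norm_natCast]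
    rw [this, e1]
    refine (norm_add_le _ _).trans ?_
    apply add_le_add
    · refine (norm_sum_le _ _).trans ((sum_le_sum fun t ht => (norm_sum_le _ _).trans
        (sum_le_sum fun s hs => b1 t ht s hs)).trans (le_of_eq ?_))
      rw [sum_const, sum_const, hcM, Nat.card_Icc, nsmul_eq_mul, nsmul_eq_mul, Nat.add_sub_cancel]
      ring
    · exact (norm_sum_le _ _).trans (sum_le_sum fun a _ => (norm_sum_le _ _).trans (sum_le_sum fun b _ => b2 a b))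
  have hWM : (0 : ℝ) < W * M := by positivity
  have e4 : ∑ a ∈ Icc (-(H : ℤ)) H, ∑ b ∈ Icc (-(H : ℤ)) H,
        (M * ∑ r ∈ range q, ‖CL F W (a + b * n + G) q r‖ + W * (4 * ((W : ℝ) / q))) =
      W * M * ∑ a ∈ Icc (-(H : ℤ)) H, ∑ b ∈ Icc (-(H : ℤ)) H,
        ((1 / (W : ℝ)) * ∑ r ∈ range q, ‖CL F W (a + b * n + G) q r‖ + 4 * ((W : ℝ) / q) / M) := by
    rw [mul_sum]
    refine sum_congr rfl fun a _ => ?_
    rw [mul_sum]
    refine sum_congr rfl fun b _ => ?_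
    field_simp
  rw [e4, ← mul_add] at b3
  exact le_of_mul_le_mul_left b3 hWM

/-- one value of `n` -/
lemma one_n (F : ℤ → ℂ) (hb : ∀ u, ‖F u‖ ≤ 1) (H x W M Q0 : ℕ) (hW : 1 ≤ W) (hM : 1 ≤ M) (hQ0 : 1 ≤ Q0)
    {ι : Type} (R : Finset ι) (G : ι → ℕ → ℤ) (n X : ℕ) (hn : n ∈ Icc 1 x) (K E : ℝ)
    (hX : ∀ c ∈ R, ∀ a ∈ Icc (-(H : ℤ)) H, ∀ b ∈ Icc (-(H : ℤ)) H, |a + b * n + G c n| ≤ X)
    (hK : ∀ u : ℤ, ((((R ×ˢ (Icc (-(H : ℤ)) H ×ˢ Icc (-(H : ℤ)) H)).filter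
      (fun p => p.2.1 + p.2.2 * n + G p.1 n = u)).card : ℕ) : ℝ) ≤ K) (hK0 : 0 ≤ K)
    (hE : ∑ u ∈ Icc (-(X : ℤ)) X, Phi F W Q0 x u ≤ E) :
    ∑ m ∈ Icc 1 x, ∑ c ∈ R, ‖∑ a ∈ Icc (-(H : ℤ)) H, ∑ b ∈ Icc (-(H : ℤ)) H,
      F (a + b * n + G c n) * (starRingEnd ℂ) (F (a + b * m + G c m))‖ ≤
      2 * Q0 * (R.card * (2 * H + 1) ^ 2) + x * (R.card * ((2 * H + 1) * (4 * ((W : ℝ) + M * x) + 4 * M))) +
      x * (R.card * ((2 * H + 1) ^ 2 * (4 * ((W : ℝ) / Q0) / M))) + 2 / W * (K * E) := by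
  have hWr : (0 : ℝ) < W := by exact_mod_cast hW
  have hMr : (0 : ℝ) < M := by exact_mod_cast hM
  have hQ0r : (0 : ℝ) < Q0 := by exact_mod_cast hQ0
  have hn' := mem_Icc.1 hn
  rw [← sum_filter_add_sum_filter_not (Icc 1 x) (fun m : ℕ => Q0 ≤ ((n : ℤ) - m).natAbs)]
  -- the near part
  have near : ∑ m ∈ (Icc 1 x).filter (fun m : ℕ => ¬ Q0 ≤ ((n : ℤ) - m).natAbs), ∑ c ∈ R,
      ‖∑ a ∈ Icc (-(H : ℤ)) H, ∑ b ∈ Icc (-(H : ℤ)) H,
        F (a + b * n + G c n) * (starRingEnd ℂ) (F (a + b * m + G c m))‖ ≤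
      2 * Q0 * (R.card * (2 * H + 1) ^ 2) := by
    have b1 : ∀ m ∈ (Icc 1 x).filter (fun m : ℕ => ¬ Q0 ≤ ((n : ℤ) - m).natAbs), ∑ c ∈ R,
        ‖∑ a ∈ Icc (-(H : ℤ)) H, ∑ b ∈ Icc (-(H : ℤ)) H,
          F (a + b * n + G c n) * (starRingEnd ℂ) (F (a + b * m + G c m))‖ ≤ R.card * (2 * H + 1) ^ 2 := by
      intro m _
      have b2 : ∀ c ∈ R, ‖∑ a ∈ Icc (-(H : ℤ)) H, ∑ b ∈ Icc (-(H : ℤ)) H,
          F (a + b * n + G c n) * (starRingEnd ℂ) (F (a + b * m + G c m))‖ ≤ (2 * H + 1) ^ 2 := by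
        intro c _
        calc _ ≤ ∑ a ∈ Icc (-(H : ℤ)) H, ∑ b ∈ Icc (-(H : ℤ)) H, (1 : ℝ) := by
              refine (norm_sum_le _ _).trans (sum_le_sum fun a _ => (norm_sum_le _ _).trans (sum_le_sum fun b _ => ?_))
              rw [norm_mul, RCLike.norm_conj]
              exact mul_le_one₀ (hb _) (norm_nonneg _) (hb _)
          _ = (2 * H + 1) ^ 2 := by
              rw [sum_const, sum_const, nsmul_eq_mul, nsmul_eq_mul, cardI]; ring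
      refine (sum_le_sum b2).trans (le_of_eq ?_)
      rw [sum_const, nsmul_eq_mul]
    refine (sum_le_sum b1).trans ?_
    rw [sum_const, nsmul_eq_mul]
    exact mul_le_mul_of_nonneg_right (near_card n x Q0 hQ0) (by positivity)
  -- the far part
  have far : ∑ m ∈ (Icc 1 x).filter (fun m : ℕ => Q0 ≤ ((n : ℤ) - m).natAbs), ∑ c ∈ R,
      ‖∑ a ∈ Icc (-(H : ℤ)) H, ∑ b ∈ Icc (-(H : ℤ)) H,
        F (a + b * n + G c n) * (starRingEnd ℂ) (F (a + b * m + G c m))‖ ≤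
      x * (R.card * ((2 * H + 1) * (4 * ((W : ℝ) + M * x) + 4 * M))) +
      x * (R.card * ((2 * H + 1) ^ 2 * (4 * ((W : ℝ) / Q0) / M))) + 2 / W * (K * E) := by
    have b1 : ∀ m ∈ (Icc 1 x).filter (fun m : ℕ => Q0 ≤ ((n : ℤ) - m).natAbs), ∑ c ∈ R,
        ‖∑ a ∈ Icc (-(H : ℤ)) H, ∑ b ∈ Icc (-(H : ℤ)) H,
          F (a + b * n + G c n) * (starRingEnd ℂ) (F (a + b * m + G c m))‖ ≤
        (R.card * ((2 * H + 1) * (4 * ((W : ℝ) + M * x) + 4 * M)) +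
        R.card * ((2 * H + 1) ^ 2 * (4 * ((W : ℝ) / Q0) / M))) +
        (1 / (W : ℝ)) * ∑ c ∈ R, ∑ a ∈ Icc (-(H : ℤ)) H, ∑ b ∈ Icc (-(H : ℤ)) H,
          ∑ r ∈ range ((n : ℤ) - m).natAbs, ‖CL F W (a + b * n + G c n) ((n : ℤ) - m).natAbs r‖ := by
      intro m hm
      rw [mem_filter, mem_Icc] at hm
      have hqr : (Q0 : ℝ) ≤ ((n : ℤ) - m).natAbs := by exact_mod_cast hm.2
      have hq0 : (0 : ℝ) < ((n : ℤ) - m).natAbs := lt_of_lt_of_le hQ0r hqr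
      have b2 : ∀ c ∈ R, ‖∑ a ∈ Icc (-(H : ℤ)) H, ∑ b ∈ Icc (-(H : ℤ)) H,
          F (a + b * n + G c n) * (starRingEnd ℂ) (F (a + b * m + G c m))‖ ≤
          ((2 * H + 1) * (4 * ((W : ℝ) + M * x) + 4 * M) + (2 * H + 1) ^ 2 * (4 * ((W : ℝ) / Q0) / M)) +
          (1 / (W : ℝ)) * ∑ a ∈ Icc (-(H : ℤ)) H, ∑ b ∈ Icc (-(H : ℤ)) H,
            ∑ r ∈ range ((n : ℤ) - m).natAbs, ‖CL F W (a + b * n + G c n) ((n : ℤ) - m).natAbs r‖ := by
        intro c _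
        refine (pair F hb H x W M hW hM n m hn'.2 (by omega) (G c n) (G c m)).trans ?_
        have e1 : ∑ a ∈ Icc (-(H : ℤ)) H, ∑ b ∈ Icc (-(H : ℤ)) H,
            ((1 / (W : ℝ)) * ∑ r ∈ range ((n : ℤ) - m).natAbs, ‖CL F W (a + b * n + G c n) ((n : ℤ) - m).natAbs r‖ +
              4 * ((W : ℝ) / ((n : ℤ) - m).natAbs) / M) =
            (1 / (W : ℝ)) * ∑ a ∈ Icc (-(H : ℤ)) H, ∑ b ∈ Icc (-(H : ℤ)) H,
              ∑ r ∈ range ((n : ℤ) - m).natAbs, ‖CL F W (a + b * n + G c n) ((n : ℤ) - m).natAbs r‖ +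
            (2 * H + 1) ^ 2 * (4 * ((W : ℝ) / ((n : ℤ) - m).natAbs) / M) := by
          simp only [sum_add_distrib, sum_const, nsmul_eq_mul, cardI, ← mul_sum]
          ring
        rw [e1]
        have e2 : (2 * (H : ℝ) + 1) ^ 2 * (4 * ((W : ℝ) / ((n : ℤ) - m).natAbs) / M) ≤
            (2 * (H : ℝ) + 1) ^ 2 * (4 * ((W : ℝ) / Q0) / M) := by gcongr
        linarith
      refine (sum_le_sum b2).trans (le_of_eq ?_)
      rw [sum_add_distrib, sum_const, nsmul_eq_mul, ← mul_sum]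
      ring
    refine (sum_le_sum b1).trans ?_
    rw [sum_add_distrib]
    apply add_le_add
    · rw [sum_const, nsmul_eq_mul, ← mul_add (x : ℝ)]
      apply mul_le_mul_of_nonneg_right _ (by positivity)
      have : ((Icc 1 x).filter (fun m : ℕ => Q0 ≤ ((n : ℤ) - m).natAbs)).card ≤ x := by
        refine (card_filter_le _ _).trans ?_
        rw [Nat.card_Icc, Nat.add_sub_cancel]
      exact_mod_cast this
    · rw [← mul_sum]
      have e1 : ∑ m ∈ (Icc 1 x).filter (fun m : ℕ => Q0 ≤ ((n : ℤ) - m).natAbs),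
          ∑ c ∈ R, ∑ a ∈ Icc (-(H : ℤ)) H, ∑ b ∈ Icc (-(H : ℤ)) H,
            ∑ r ∈ range ((n : ℤ) - m).natAbs, ‖CL F W (a + b * n + G c n) ((n : ℤ) - m).natAbs r‖ ≤
          ∑ c ∈ R, ∑ a ∈ Icc (-(H : ℤ)) H, ∑ b ∈ Icc (-(H : ℤ)) H, 2 * Phi F W Q0 x (a + b * n + G c n) := by
        rw [sum_comm]
        apply sum_le_sum
        intro c _
        rw [sum_comm]
        apply sum_le_sum
        intro a _
        rw [sum_comm]
        apply sum_le_sum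
        intro b _
        exact far_sum (fun q => ∑ r ∈ range q, ‖CL F W (a + b * n + G c n) q r‖)
          (fun q => sum_nonneg fun _ _ => norm_nonneg _) n x Q0 hn hQ0
      have e2 : ∑ c ∈ R, ∑ a ∈ Icc (-(H : ℤ)) H, ∑ b ∈ Icc (-(H : ℤ)) H, 2 * Phi F W Q0 x (a + b * n + G c n) ≤
          2 * (K * E) := by
        have e3 : ∑ c ∈ R, ∑ a ∈ Icc (-(H : ℤ)) H, ∑ b ∈ Icc (-(H : ℤ)) H, 2 * Phi F W Q0 x (a + b * n + G c n) =
            2 * ∑ p ∈ R ×ˢ (Icc (-(H : ℤ)) H ×ˢ Icc (-(H : ℤ)) H), Phi F W Q0 x (p.2.1 + p.2.2 * n + G p.1 n) := by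
          rw [sum_product, mul_sum]
          refine sum_congr rfl fun c _ => ?_
          rw [sum_product, mul_sum]
          refine sum_congr rfl fun a _ => ?_
          rw [mul_sum]
        rw [e3]
        apply mul_le_mul_of_nonneg_left _ (by norm_num)
        refine (val_sum (R ×ˢ (Icc (-(H : ℤ)) H ×ˢ Icc (-(H : ℤ)) H)) (fun p => p.2.1 + p.2.2 * n + G p.1 n) X
          (fun p hp => ?_) K hK (Phi F W Q0 x) (Phi_nonneg F W Q0 x)).trans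
            (mul_le_mul_of_nonneg_left hE hK0)
        rw [mem_product, mem_product] at hp
        exact hX p.1 hp.1 p.2.1 hp.2.1 p.2.2 hp.2.2
      calc (1 / (W : ℝ)) * _ ≤ (1 / (W : ℝ)) * (2 * (K * E)) :=
            mul_le_mul_of_nonneg_left (e1.trans e2) (by positivity)
        _ = _ := by ring
  linarith

/-- **The second moment with arbitrary weights.** -/
theorem core (ε : ℝ) (hε : 0 < ε) (C : ℝ) (hC : 0 < C) : ∃ e₀ : ℝ, 0 < e₀ ∧ ∀ W₀ : ℕ,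
    ∃ x₀ : ℕ, ∃ δ : ℝ, 0 < δ ∧ δ ≤ 1 ∧ ∀ (F : ℤ → ℂ), (∀ u, ‖F u‖ ≤ 1) → ∀ H x : ℕ, WZ F e₀ W₀ H → x₀ ≤ x → (x : ℝ) ≤ δ * H →
    ∀ (ι : Type) (R : Finset ι) (G : ι → ℕ → ℤ) (X : ℕ → ℕ),
    (∀ n ∈ Icc 1 x, H ≤ X n) →
    (∀ n ∈ Icc 1 x, ∀ c ∈ R, ∀ a ∈ Icc (-(H : ℤ)) H, ∀ b ∈ Icc (-(H : ℤ)) H, |a + b * n + G c n| ≤ X n) →
    (∀ n ∈ Icc 1 x, ∀ u : ℤ, ((((R ×ˢ (Icc (-(H : ℤ)) H ×ˢ Icc (-(H : ℤ)) H)).filter
      (fun p => p.2.1 + p.2.2 * n + G p.1 n = u)).card : ℕ) : ℝ) * X n ≤ C * ((2 * H + 1) ^ 2 * R.card)) →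
    ∀ w : ℕ → ℂ, (∀ n, ‖w n‖ ≤ 1) →
    ∑ c ∈ R, ∑ a ∈ Icc (-(H : ℤ)) H, ∑ b ∈ Icc (-(H : ℤ)) H,
      ‖∑ n ∈ Icc 1 x, w n * F (a + b * n + G c n)‖ ^ 2 ≤ ε * x ^ 2 * ((2 * H + 1) ^ 2 * R.card) := by
  set e : ℝ := min ε 1 with he
  have he0 : 0 < e := lt_min hε one_pos
  have he1 : e ≤ 1 := min_le_right _ _
  have heε : e ≤ ε := min_le_left _ _
  set κ : ℝ := e / 32 with hκ
  have hκ0 : 0 < κ := by positivity
  have hκ1 : κ ≤ 1 := by rw [hκ]; linarith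
  set δ₂ : ℝ := e / 48 with hδ₂
  have hδ₂0 : 0 < δ₂ := by positivity
  have hδ₂1 : δ₂ ≤ 1 := by rw [hδ₂]; linarith
  set δ₁ : ℝ := e * κ * δ₂ / 32 with hδ₁
  have hδ₁0 : 0 < δ₁ := by positivity
  have hδ₁2 : δ₁ ≤ δ₂ := by
    rw [hδ₁]
    have : e * κ ≤ 1 := mul_le_one₀ he1 hκ0.le hκ1
    have h2 : e * κ * δ₂ ≤ 1 * δ₂ := mul_le_mul_of_nonneg_right this hδ₂0.le
    linarith
  obtain ⟨e₀, he₀, δ₃, hδ₃0, hP0⟩ := Phi_sum (e / (8 * C)) (by positivity) κ hκ0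
  set δ : ℝ := min (δ₃ * δ₁) δ₂ with hδ
  refine ⟨e₀, he₀, fun W₀ => ⟨⌈1 / κ⌉₊ + ⌈((W₀ : ℝ) + 1) / δ₁⌉₊ + 1, δ, by positivity, (min_le_right _ _).trans hδ₂1,
    fun F hb H x hWZ hx0 hxH ι R G X hHX hGX hν w hw => ?_⟩⟩
  have hx1 : 1 ≤ x := by omega
  have hxr : (1 : ℝ) ≤ x := by exact_mod_cast hx1
  have hxr0 : (0 : ℝ) < x := by linarith
  have hx2 : 1 / κ ≤ x := (Nat.le_ceil _).trans (by exact_mod_cast (by omega : ⌈1 / κ⌉₊ ≤ x))
  have hx3 : ((W₀ : ℝ) + 1) / δ₁ ≤ x := (Nat.le_ceil _).trans (by exact_mod_cast (by omega : ⌈((W₀ : ℝ) + 1) / δ₁⌉₊ ≤ x))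
  have hH0 : (0 : ℝ) ≤ H := by positivity
  have hxδ₂ : (x : ℝ) ≤ δ₂ * H := hxH.trans (mul_le_mul_of_nonneg_right (min_le_right _ _) hH0)
  have hxδ₃ : (x : ℝ) ≤ δ₃ * δ₁ * H := hxH.trans (mul_le_mul_of_nonneg_right (min_le_left _ _) hH0)
  have hxH1 : (x : ℝ) ≤ H := hxδ₂.trans (by nlinarith)
  have hxHn : x ≤ H := by exact_mod_cast hxH1
  have hH1 : 1 ≤ H := hx1.trans hxHn
  have hHr : (1 : ℝ) ≤ H := by exact_mod_cast hH1
  have hP := hP0 F hb W₀ H hH1 hWZ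
  set L : ℝ := 2 * H + 1 with hL
  have hL0 : 0 < L := by positivity
  -- `W`
  set W : ℕ := ⌊δ₁ * L⌋₊ with hW
  have hW1 : (W : ℝ) ≤ δ₁ * L := Nat.floor_le (by positivity)
  have hδ₁H : (W₀ : ℝ) + 1 ≤ δ₁ * H := by
    rw [div_le_iff₀ hδ₁0] at hx3
    calc (W₀ : ℝ) + 1 ≤ x * δ₁ := hx3
      _ ≤ H * δ₁ := mul_le_mul_of_nonneg_right hxH1 hδ₁0.le
      _ = _ := by ring
  have hW2 : δ₁ * H ≤ W := by
    have h1 := (Nat.lt_floor_add_one (δ₁ * L)).le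
    have h2 : (0 : ℝ) ≤ W₀ := by positivity
    have h3 : δ₁ * L = 2 * (δ₁ * H) + δ₁ := by rw [hL]; ring
    rw [← hW] at h1
    linarith
  have hW3 : (W₀ : ℝ) + 1 ≤ W := hδ₁H.trans hW2
  have hW4 : W₀ + 1 ≤ W := by exact_mod_cast hW3
  have hW5 : 1 ≤ W := by omega
  have hWr : (0 : ℝ) < W := by exact_mod_cast hW5
  have hW6 : W ≤ H := by
    have : (W : ℝ) ≤ H := by
      have h1 : δ₁ ≤ 1 / 48 := hδ₁2.trans (by rw [hδ₂]; linarith)
      calc (W : ℝ) ≤ δ₁ * L := hW1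
        _ ≤ 1 / 48 * L := mul_le_mul_of_nonneg_right h1 hL0.le
        _ ≤ H := by rw [hL]; linarith
    exact_mod_cast this
  -- `M`
  set M : ℕ := ⌊δ₂ * L / x⌋₊ with hM
  have hy1 : 1 ≤ δ₂ * L / x := by
    rw [le_div_iff₀ hxr0, one_mul]
    refine hxδ₂.trans ?_
    apply mul_le_mul_of_nonneg_left _ hδ₂0.le
    rw [hL]; linarith
  have hM1 : (M : ℝ) ≤ δ₂ * L / x := Nat.floor_le (by positivity)
  have hM2 : δ₂ * L / x / 2 ≤ M := by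
    have h1 := (Nat.lt_floor_add_one (δ₂ * L / x)).le
    rw [← hM] at h1
    have h2 : (1 : ℝ) ≤ M := by
      have : 1 ≤ M := Nat.le_floor (by exact_mod_cast hy1)
      exact_mod_cast this
    linarith
  have hM3 : 1 ≤ M := Nat.le_floor (by exact_mod_cast hy1)
  have hMr : (0 : ℝ) < M := by exact_mod_cast hM3
  have hMx : (M : ℝ) * x ≤ δ₂ * L := by
    rw [le_div_iff₀ hxr0] at hM1
    exact hM1
  have hML : (M : ℝ) ≤ δ₂ * L := by
    refine le_trans ?_ hMx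
    nlinarith
  -- `Q₀`
  set Q0 : ℕ := ⌈κ * x⌉₊ with hQ0
  have hQ1 : κ * x ≤ Q0 := Nat.le_ceil _
  have hQ2 : (Q0 : ℝ) ≤ 2 * κ * x := by
    have h1 := (Nat.ceil_lt_add_one (by positivity : 0 ≤ κ * (x : ℝ))).le
    rw [div_le_iff₀ hκ0] at hx2
    rw [← hQ0] at h1
    linarith
  have hQ3 : 1 ≤ Q0 := Nat.one_le_ceil_iff.2 (by positivity)
  have hQr : (0 : ℝ) < Q0 := by exact_mod_cast hQ3
  -- each `n`
  have main : ∀ n ∈ Icc 1 x, ∑ m ∈ Icc 1 x, ∑ c ∈ R, ‖∑ a ∈ Icc (-(H : ℤ)) H, ∑ b ∈ Icc (-(H : ℤ)) H,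
      F (a + b * n + G c n) * (starRingEnd ℂ) (F (a + b * m + G c m))‖ ≤ e * x * (L ^ 2 * R.card) := by
    intro n hn
    have hXH := hHX n hn
    have hX1 : 1 ≤ X n := hH1.trans hXH
    have hXr : (0 : ℝ) < X n := by exact_mod_cast hX1
    have hPn := hP (X n) hXH W (by omega) (by omega) x Q0 hQ3 hQ1 (by
      refine hxδ₃.trans ?_
      calc δ₃ * δ₁ * H = δ₃ * (δ₁ * H) := by ring
        _ ≤ δ₃ * W := mul_le_mul_of_nonneg_left hW2 hδ₃0.le)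
    have hKn : ∀ u : ℤ, ((((R ×ˢ (Icc (-(H : ℤ)) H ×ˢ Icc (-(H : ℤ)) H)).filter
      (fun p => p.2.1 + p.2.2 * n + G p.1 n = u)).card : ℕ) : ℝ) ≤ C * (L ^ 2 * R.card) / X n := by
      intro u
      rw [le_div_iff₀ hXr]
      exact hν n hn u
    refine (one_n F hb H x W M Q0 hW5 hM3 hQ3 R G n (X n) hn (C * (L ^ 2 * R.card) / X n)
      (e / (8 * C) * x * W * X n) (hGX n hn) hKn (by positivity) hPn).trans ?_
    have t1 : 2 * (Q0 : ℝ) * (R.card * L ^ 2) ≤ e / 8 * x * (L ^ 2 * R.card) := by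
      calc 2 * (Q0 : ℝ) * (R.card * L ^ 2) ≤ 2 * (2 * κ * x) * (R.card * L ^ 2) := by gcongr
        _ = _ := by rw [hκ]; ring
    have t2 : (x : ℝ) * (R.card * (L * (4 * ((W : ℝ) + M * x) + 4 * M))) ≤ e / 4 * x * (L ^ 2 * R.card) := by
      calc (x : ℝ) * (R.card * (L * (4 * ((W : ℝ) + M * x) + 4 * M))) ≤
            (x : ℝ) * (R.card * (L * (4 * (δ₂ * L + δ₂ * L) + 4 * (δ₂ * L)))) := by
              have : (W : ℝ) ≤ δ₂ * L := hW1.trans (mul_le_mul_of_nonneg_right hδ₁2 hL0.le)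
              gcongr
        _ = _ := by rw [hδ₂]; ring
    have t3 : (x : ℝ) * (R.card * (L ^ 2 * (4 * ((W : ℝ) / Q0) / M))) ≤ e / 4 * x * (L ^ 2 * R.card) := by
      have s1 : 4 * ((W : ℝ) / Q0) / M ≤ e / 4 := by
        rw [div_le_iff₀ hMr, mul_div_assoc', div_le_iff₀ hQr]
        calc 4 * (W : ℝ) ≤ 4 * (δ₁ * L) := by gcongr
          _ = e / 4 * (δ₂ * L / x / 2) * (κ * x) := by
              rw [hδ₁]
              field_simp
              ring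
          _ ≤ e / 4 * M * Q0 := by gcongr
      calc (x : ℝ) * (R.card * (L ^ 2 * (4 * ((W : ℝ) / Q0) / M))) ≤ (x : ℝ) * (R.card * (L ^ 2 * (e / 4))) := by gcongr
        _ = _ := by ring
    have t4 : 2 / (W : ℝ) * (C * (L ^ 2 * R.card) / X n * (e / (8 * C) * x * W * X n)) = e / 4 * x * (L ^ 2 * R.card) := by
      field_simp
      ring
    rw [t4]
    have t5 : 0 ≤ e * x * (L ^ 2 * R.card) := by positivity
    nlinarith
  -- the expansion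
  have hexp : ((∑ c ∈ R, ∑ a ∈ Icc (-(H : ℤ)) H, ∑ b ∈ Icc (-(H : ℤ)) H,
      ‖∑ n ∈ Icc 1 x, w n * F (a + b * n + G c n)‖ ^ 2 : ℝ) : ℂ) =
      ∑ n ∈ Icc 1 x, ∑ m ∈ Icc 1 x, w n * (starRingEnd ℂ) (w m) * ∑ c ∈ R, ∑ a ∈ Icc (-(H : ℤ)) H, ∑ b ∈ Icc (-(H : ℤ)) H,
        (F (a + b * n + G c n) * (starRingEnd ℂ) (F (a + b * m + G c m))) := by
    rw [Complex.ofReal_sum]
    have e1 : ∀ c ∈ R, ((∑ a ∈ Icc (-(H : ℤ)) H, ∑ b ∈ Icc (-(H : ℤ)) H,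
        ‖∑ n ∈ Icc 1 x, w n * F (a + b * n + G c n)‖ ^ 2 : ℝ) : ℂ) =
        ∑ n ∈ Icc 1 x, ∑ m ∈ Icc 1 x, w n * (starRingEnd ℂ) (w m) * ∑ a ∈ Icc (-(H : ℤ)) H, ∑ b ∈ Icc (-(H : ℤ)) H,
          (F (a + b * n + G c n) * (starRingEnd ℂ) (F (a + b * m + G c m))) := by
      intro c _
      rw [Complex.ofReal_sum]
      have e2 : ∀ a ∈ Icc (-(H : ℤ)) H, ((∑ b ∈ Icc (-(H : ℤ)) H,
          ‖∑ n ∈ Icc 1 x, w n * F (a + b * n + G c n)‖ ^ 2 : ℝ) : ℂ) =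
          ∑ n ∈ Icc 1 x, ∑ m ∈ Icc 1 x, w n * (starRingEnd ℂ) (w m) * ∑ b ∈ Icc (-(H : ℤ)) H,
            (F (a + b * n + G c n) * (starRingEnd ℂ) (F (a + b * m + G c m))) := by
        intro a _
        rw [Complex.ofReal_sum]
        rw [sum_congr rfl fun b _ => expand x w (fun n => F (a + b * n + G c n))]
        rw [sum_comm]
        refine sum_congr rfl fun n _ => ?_
        rw [sum_comm]
        refine sum_congr rfl fun m _ => ?_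
        rw [← mul_sum]
      rw [sum_congr rfl e2, sum_comm]
      refine sum_congr rfl fun n _ => ?_
      rw [sum_comm]
      refine sum_congr rfl fun m _ => ?_
      rw [← mul_sum]
    rw [sum_congr rfl e1, sum_comm]
    refine sum_congr rfl fun n _ => ?_
    rw [sum_comm]
    refine sum_congr rfl fun m _ => ?_
    rw [← mul_sum]
  set S : ℝ := ∑ c ∈ R, ∑ a ∈ Icc (-(H : ℤ)) H, ∑ b ∈ Icc (-(H : ℤ)) H,
      ‖∑ n ∈ Icc 1 x, w n * F (a + b * n + G c n)‖ ^ 2 with hS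
  have hS0 : S ≤ ‖(S : ℂ)‖ := by rw [Complex.norm_real]; exact le_abs_self _
  refine hS0.trans ?_
  rw [hexp]
  calc _ ≤ ∑ n ∈ Icc 1 x, ∑ m ∈ Icc 1 x, ∑ c ∈ R, ‖∑ a ∈ Icc (-(H : ℤ)) H, ∑ b ∈ Icc (-(H : ℤ)) H,
      F (a + b * n + G c n) * (starRingEnd ℂ) (F (a + b * m + G c m))‖ := by
        refine (norm_sum_le _ _).trans (sum_le_sum fun n _ => (norm_sum_le _ _).trans (sum_le_sum fun m _ => ?_))
        rw [norm_mul, norm_mul, RCLike.norm_conj]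
        calc ‖w n‖ * ‖w m‖ * _ ≤ 1 * _ := by
              apply mul_le_mul_of_nonneg_right _ (norm_nonneg _)
              exact mul_le_one₀ (hw n) (norm_nonneg _) (hw m)
          _ ≤ _ := by rw [one_mul]; exact norm_sum_le _ _
    _ ≤ ∑ n ∈ Icc 1 x, e * x * (L ^ 2 * R.card) := sum_le_sum main
    _ = e * x ^ 2 * (L ^ 2 * R.card) := by
        rw [sum_const, Nat.card_Icc, Nat.add_sub_cancel, nsmul_eq_mul]; ring
    _ ≤ _ := by gcongr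

/-- **The second moment over boxes of polynomials.** -/
theorem second_moment (d : ℕ) (hd : 1 ≤ d) (C ε : ℝ) (hε : 0 < ε) : ∃ e₀ : ℝ, 0 < e₀ ∧ ∀ W₀ : ℕ,
    ∃ x₀ : ℕ, ∃ δ : ℝ, 0 < δ ∧ δ ≤ 1 ∧ ∀ (F : ℤ → ℂ), (∀ u, ‖F u‖ ≤ 1) → ∀ H x : ℕ, WZ F e₀ W₀ H → x₀ ≤ x → (x : ℝ) ≤ δ * H →
    ∀ g : ℕ → ℤ, (∀ n, 1 ≤ n → n ≤ x → |(g n : ℝ)| ≤ C * H * n ^ d) → ∀ w : ℕ → ℂ, (∀ n, ‖w n‖ ≤ 1) →
    ∑ v ∈ Bx d H, ‖∑ n ∈ Icc 1 x, w n * F (pv v n + g n)‖ ^ 2 ≤ ε * x ^ 2 * (Bx d H).card := by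
  obtain ⟨e, rfl⟩ : ∃ e, d = e + 1 := ⟨d - 1, by omega⟩
  set K : ℕ := e + 2 + ⌈max C 0⌉₊ with hK
  have hKr : (e : ℝ) + 2 + max C 0 ≤ K := by
    rw [hK]; push_cast
    have := Nat.le_ceil (max C 0)
    linarith
  have hK1 : 1 ≤ K := by omega
  have hKr1 : (1 : ℝ) ≤ K := by exact_mod_cast hK1
  obtain ⟨e₀, he₀, hcore0⟩ := core ε hε (4 ^ (e + 1) * K) (by positivity)
  refine ⟨e₀, he₀, fun W₀ => ?_⟩
  obtain ⟨x₀, δ, hδ0, hδ1, hcore⟩ := hcore0 W₀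
  refine ⟨max x₀ 1, δ, hδ0, hδ1, fun F hb H x hWZ hx0 hxH g hg w hw => ?_⟩
  have hx1 : x₀ ≤ x := (le_max_left _ _).trans hx0
  have hx2 : 1 ≤ x := (le_max_right _ _).trans hx0
  have hxH' : x ≤ H := by
    have : (x : ℝ) ≤ H := hxH.trans (by
      have : (0 : ℝ) ≤ H := by positivity
      nlinarith)
    exact_mod_cast this
  have hH1 : 1 ≤ H := hx2.trans hxH'
  have hHr : (1 : ℝ) ≤ H := by exact_mod_cast hH1
  have hcR : (((Fintype.piFinset (fun _ : Fin e => Icc (-(H : ℤ)) H)).card : ℕ) : ℝ) = (2 * H + 1) ^ e := by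
    rw [Fintype.card_piFinset, prod_const, card_univ, Fintype.card_fin]
    push_cast
    rw [cardI]
  have key := hcore F hb H x hWZ hx1 hxH (Fin e → ℤ) (Fintype.piFinset (fun _ : Fin e => Icc (-(H : ℤ)) H))
    (fun c n => ∑ i : Fin e, c i * (n : ℤ) ^ ((i : ℕ) + 2) + g n) (fun n => K * H * n ^ (e + 1)) ?_ ?_ ?_ w hw
  · rw [sum_box, card_Bx]
    rw [hcR] at key
    refine le_trans (le_of_eq ?_) (key.trans (le_of_eq ?_))
    · refine sum_congr rfl fun c _ => sum_congr rfl fun a _ => sum_congr rfl fun b _ => ?_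
      congr 2
      refine sum_congr rfl fun n _ => ?_
      rw [pv_cons]
      congr 2
      ring
    · ring
  · intro n hn
    rw [mem_Icc] at hn
    have h1 : 1 ≤ n ^ (e + 1) := Nat.one_le_pow _ _ hn.1
    calc H = 1 * H * 1 := by ring
      _ ≤ K * H * n ^ (e + 1) := by gcongr
  · intro n hn c hc a ha b hb'
    rw [mem_Icc] at hn ha hb'
    rw [Fintype.mem_piFinset] at hc
    have hnr : (1 : ℝ) ≤ n := by exact_mod_cast hn.1
    have hH0 : (0 : ℝ) ≤ H := by positivity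
    have ha' : |(a : ℝ)| ≤ H := by rw [abs_le]; exact ⟨by exact_mod_cast ha.1, by exact_mod_cast ha.2⟩
    have hb'' : |(b : ℝ)| ≤ H := by rw [abs_le]; exact ⟨by exact_mod_cast hb'.1, by exact_mod_cast hb'.2⟩
    have hc' : ∀ i, |(c i : ℝ)| ≤ H := by
      intro i
      have := hc i
      rw [mem_Icc] at this
      rw [abs_le]; exact ⟨by exact_mod_cast this.1, by exact_mod_cast this.2⟩
    have hp : ∀ j, j ≤ e + 1 → (n : ℝ) ^ j ≤ (n : ℝ) ^ (e + 1) := fun j hj => pow_le_pow_right₀ hnr hj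
    have hg' := hg n hn.1 hn.2
    have hsum : |∑ i : Fin e, (c i : ℝ) * (n : ℝ) ^ ((i : ℕ) + 2)| ≤ e * (H * (n : ℝ) ^ (e + 1)) := by
      refine (abs_sum_le_sum_abs _ _).trans ?_
      calc ∑ i : Fin e, |(c i : ℝ) * (n : ℝ) ^ ((i : ℕ) + 2)| ≤ ∑ i : Fin e, H * (n : ℝ) ^ (e + 1) := by
            apply sum_le_sum
            intro i _
            rw [abs_mul, abs_of_nonneg (by positivity : (0 : ℝ) ≤ (n : ℝ) ^ ((i : ℕ) + 2))]
            exact mul_le_mul (hc' i) (hp _ (by omega)) (by positivity) hH0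
        _ = _ := by simp
    have h0 : (H : ℝ) ≤ H * (n : ℝ) ^ (e + 1) := by
      have := one_le_pow₀ hnr (n := e + 1)
      nlinarith
    have h1 : |(b : ℝ) * n| ≤ H * (n : ℝ) ^ (e + 1) := by
      rw [abs_mul, abs_of_nonneg (by positivity : (0 : ℝ) ≤ (n : ℝ))]
      have := hp 1 (by omega)
      rw [pow_one] at this
      exact mul_le_mul hb'' this (by positivity) hH0
    have h2 : |((a + b * n + (∑ i : Fin e, c i * (n : ℤ) ^ ((i : ℕ) + 2) + g n) : ℤ) : ℝ)| ≤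
        ((K * H * n ^ (e + 1) : ℕ) : ℝ) := by
      push_cast
      refine (abs_add_le _ _).trans ?_
      have t1 := abs_add_le (a : ℝ) (b * n)
      have t2 := abs_add_le (∑ i : Fin e, (c i : ℝ) * (n : ℝ) ^ ((i : ℕ) + 2)) (g n : ℝ)
      have t3 : C * H * (n : ℝ) ^ (e + 1) ≤ max C 0 * H * (n : ℝ) ^ (e + 1) := by
        have := le_max_left C 0
        gcongr
      have t4 : ((e : ℝ) + 2 + max C 0) * (H * (n : ℝ) ^ (e + 1)) ≤ K * (H * (n : ℝ) ^ (e + 1)) :=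
        mul_le_mul_of_nonneg_right hKr (by positivity)
      nlinarith
    rw [← Int.cast_abs] at h2
    exact_mod_cast h2
  · intro n hn u
    rw [mem_Icc] at hn
    have hnH : n ≤ H := hn.2.trans hxH'
    have hnr : (0 : ℝ) < n := by exact_mod_cast hn.1
    have h1 : ((((Fintype.piFinset (fun _ : Fin e => Icc (-(H : ℤ)) H)) ×ˢ (Icc (-(H : ℤ)) H ×ˢ Icc (-(H : ℤ)) H)).filter
        (fun p => p.2.1 + p.2.2 * n + (∑ i : Fin e, p.1 i * (n : ℤ) ^ ((i : ℕ) + 2) + g n) = u)).card : ℕ) ≤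
        ((Fintype.piFinset (fun _ : Fin (e + 1 + 1) => Icc (-(H : ℤ)) H)).filter
          (fun a => ∑ i : Fin (e + 1 + 1), a i * (n : ℤ) ^ (i : ℕ) = u - g n)).card := by
      apply card_le_card_of_injOn (fun p => (Fin.cons p.2.1 (Fin.cons p.2.2 p.1) : Fin (e + 1 + 1) → ℤ))
      · intro p hp
        rw [mem_coe, mem_filter, mem_product, mem_product, Fintype.mem_piFinset] at hp
        rw [mem_coe, mem_filter, Fintype.mem_piFinset]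
        refine ⟨fun i => ?_, ?_⟩
        · simp only
          refine Fin.cases ?_ (fun j => ?_) i
          · rw [Fin.cons_zero]; exact hp.1.2.1
          · rw [Fin.cons_succ]
            refine Fin.cases ?_ (fun l => ?_) j
            · rw [Fin.cons_zero]; exact hp.1.2.2
            · rw [Fin.cons_succ]; exact hp.1.1 l
        · have := pv_cons e p.2.1 p.2.2 p.1 n
          unfold pv at this
          rw [this]
          linarith [hp.2]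
      · intro p _ p' _ hpp
        simp only at hpp
        have h0 := congrFun hpp 0
        have h1 := congrFun hpp 1
        have h2 : ∀ j : Fin e, p.1 j = p'.1 j := fun j => congrFun hpp j.succ.succ
        simp only [Fin.cons_zero] at h0
        have h1' : p.2.2 = p'.2.2 := h1
        ext
        · exact h2 _
        · exact h0
        · exact h1'
    have h2 : ((((Fintype.piFinset (fun _ : Fin e => Icc (-(H : ℤ)) H)) ×ˢ (Icc (-(H : ℤ)) H ×ˢ Icc (-(H : ℤ)) H)).filter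
        (fun p => p.2.1 + p.2.2 * n + (∑ i : Fin e, p.1 i * (n : ℤ) ^ ((i : ℕ) + 2) + g n) = u)).card : ℝ) ≤
        (4 * H / n) ^ (e + 1) :=
      le_trans (by exact_mod_cast h1) (card_val (e + 1) H n hn.1 hnH (u - g n))
    calc _ ≤ (4 * (H : ℝ) / n) ^ (e + 1) * ((K * H * n ^ (e + 1) : ℕ) : ℝ) :=
          mul_le_mul_of_nonneg_right h2 (by positivity)
      _ = 4 ^ (e + 1) * K * (H : ℝ) ^ (e + 2) := by
          push_cast
          rw [div_pow, mul_pow]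
          field_simp
          ring
      _ ≤ 4 ^ (e + 1) * K * (2 * (H : ℝ) + 1) ^ (e + 2) := by
          have : (H : ℝ) ≤ 2 * H + 1 := by linarith
          gcongr
      _ = _ := by
          rw [hcR]; ring


end Pool.Agent.Helper82K9.RQ
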