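import Pool.Agent.Helper82K9.RQ.RQ2

set_option autoImplicit false

/-! Real multiplicative functions at random polynomials, with arbitrary weights. -/

namespace Pool.Agent.Helper82K9.RQ

open Finset
open Pool.Agent.TH892.RT (Bx pv Bk card_Bk card_Bx cheb fibre)
open Pool.Agent.Helper82K9.EL (RMul FarR ws_real)

lemma farR_mono {A A' N : ℕ} {f : ℕ → ℝ} (h : FarR A' N f) (hA : A ≤ A') : FarR A N f := by
  intro q χ h1 h2 h3
  exact le_trans (by exact_mod_cast hA) (h q χ h1 (h2.trans hA) h3)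

open Classical in
/-- one random polynomial, arbitrary weights, all lengths -/
theorem one (d : ℕ) (hd : 1 ≤ d) (C ε : ℝ) (hε : 0 < ε) : ∃ e₀ : ℝ, 0 < e₀ ∧ ∀ W₀ : ℕ,
    ∃ x₀ : ℕ, ∃ δ : ℝ, 0 < δ ∧ δ ≤ 1 ∧ ∀ (F : ℤ → ℂ), (∀ u, ‖F u‖ ≤ 1) → ∀ H x : ℕ, WZ F e₀ W₀ H → x₀ ≤ x → (x : ℝ) ≤ δ * H →
    ∀ g : ℕ → ℤ, (∀ n, 1 ≤ n → n ≤ x → |(g n : ℝ)| ≤ C * H * n ^ d) → ∀ w : ℕ → ℂ, (∀ n, ‖w n‖ ≤ 1) →
    ((((Bx d H).filter (fun v => ∃ y ≤ x, ε * x < ‖∑ n ∈ Icc 1 y, w n * F (pv v n + g n)‖)).card : ℕ) : ℝ) ≤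
      ε * (Bx d H).card := by
  obtain ⟨J, hJ⟩ : ∃ J : ℕ, J = ⌈4 / ε⌉₊ + 1 := ⟨_, rfl⟩
  have hJ1 : 1 ≤ J := by omega
  have hJr : (0 : ℝ) < J := by exact_mod_cast hJ1
  have hJε : 4 / ε ≤ J := (Nat.le_ceil _).trans (by exact_mod_cast (by omega : ⌈4 / ε⌉₊ ≤ J))
  have hJε' : 4 ≤ ε * J := by
    rw [div_le_iff₀ hε] at hJε
    linarith
  obtain ⟨e₀, he₀, hS0⟩ := second_moment d hd C (ε ^ 3 / (4 * (J + 1))) (by positivity)
  refine ⟨e₀, he₀, fun W₀ => ?_⟩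
  obtain ⟨x₀, δ, hδ0, hδ1, hS⟩ := hS0 W₀
  refine ⟨max x₀ J, δ, hδ0, hδ1, fun F hb H x hWZ hx0 hxH g hg w hw => ?_⟩
  have hx1 : x₀ ≤ x := (le_max_left _ _).trans hx0
  have hxJ : J ≤ x := (le_max_right _ _).trans hx0
  have hx2 : 1 ≤ x := hJ1.trans hxJ
  have hxr : (0 : ℝ) < x := by exact_mod_cast hx2
  have hxJr : (J : ℝ) ≤ x := by exact_mod_cast hxJ
  -- the grid
  obtain ⟨Y, hY⟩ : ∃ Y : ℕ → ℕ, Y = fun j => j * x / J := ⟨_, rfl⟩
  have hYx : ∀ j ∈ range (J + 1), Y j ≤ x := by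
    intro j hj
    rw [mem_range] at hj
    rw [hY]
    apply Nat.div_le_of_le_mul
    exact Nat.mul_le_mul_right x (by omega)
  have hgrid : ∀ y ≤ x, ∃ j ∈ range (J + 1), Y j ≤ y ∧ ((y - Y j : ℕ) : ℝ) ≤ ε / 2 * x := by
    intro y hy
    have hJ0 : 0 < J := hJ1
    refine ⟨y * J / x, ?_, ?_, ?_⟩
    · rw [mem_range]
      have : y * J / x ≤ J := by
        apply Nat.div_le_of_le_mul
        exact Nat.mul_le_mul_right J hy
      omega
    · rw [hY]
      apply Nat.div_le_of_le_mul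
      rw [mul_comm J y]
      exact Nat.div_mul_le_self _ _
    · have h1 : Y (y * J / x) ≤ y := by
        rw [hY]
        apply Nat.div_le_of_le_mul
        rw [mul_comm J y]
        exact Nat.div_mul_le_self _ _
      rw [Nat.cast_sub h1]
      have h2 : (y : ℝ) * J / x - 1 < ((y * J / x : ℕ) : ℝ) := by
        have := Nat.lt_succ_floor ((y : ℝ) * J / x)
        have h3 : ⌊(y : ℝ) * J / x⌋₊ = y * J / x := by
          have := Nat.floor_div_eq_div (K := ℝ) (y * J) x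
          push_cast at this
          exact this
        rw [h3] at this
        push_cast at this
        linarith
      have h4 : ((y * J / x : ℕ) : ℝ) * x / J - 1 < (Y (y * J / x) : ℝ) := by
        rw [hY]
        have := Nat.lt_succ_floor (((y * J / x : ℕ) : ℝ) * x / J)
        have h3 : ⌊((y * J / x : ℕ) : ℝ) * x / J⌋₊ = (y * J / x) * x / J := by
          have := Nat.floor_div_eq_div (K := ℝ) ((y * J / x) * x) J
          push_cast at this
          exact this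
        rw [h3] at this
        push_cast at this
        push_cast
        linarith
      have h5 : (y : ℝ) - x / J ≤ ((y * J / x : ℕ) : ℝ) * x / J := by
        have h6 : ((y : ℝ) * J / x - 1) * x / J ≤ ((y * J / x : ℕ) : ℝ) * x / J := by gcongr
        refine le_trans (le_of_eq ?_) h6
        field_simp
      have h7 : (x : ℝ) / J ≤ ε / 4 * x := by
        rw [div_le_iff₀ hJr]
        nlinarith
      have h8 : (1 : ℝ) ≤ ε / 4 * x := by
        have : 4 ≤ ε * x := hJε'.trans (by gcongr)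
        linarith
      linarith
  -- the exceptions
  have hsub : (Bx d H).filter (fun v => ∃ y ≤ x, ε * x < ‖∑ n ∈ Icc 1 y, w n * F (pv v n + g n)‖) ⊆
      (range (J + 1)).biUnion (fun j => (Bx d H).filter (fun v => ε / 2 * x < ‖∑ n ∈ Icc 1 x,
        (if n ≤ Y j then w n else 0) * F (pv v n + g n)‖)) := by
    intro v hv
    rw [mem_filter] at hv
    obtain ⟨hv1, y, hy, hv2⟩ := hv
    obtain ⟨j, hj, hj1, hj2⟩ := hgrid y hy
    rw [mem_biUnion]
    refine ⟨j, hj, mem_filter.2 ⟨hv1, ?_⟩⟩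
    have e1 : ∑ n ∈ Icc 1 x, (if n ≤ Y j then w n else 0) * F (pv v n + g n) = ∑ n ∈ Icc 1 (Y j), w n * F (pv v n + g n) := by
      have : Icc 1 (Y j) = (Icc 1 x).filter (fun n => n ≤ Y j) := by
        ext n
        rw [mem_filter, mem_Icc, mem_Icc]
        have := hYx j hj
        omega
      rw [this, sum_filter]
      refine sum_congr rfl fun n _ => ?_
      split_ifs <;> simp
    rw [e1]
    have e2 : ∑ n ∈ Icc 1 y, w n * F (pv v n + g n) = ∑ n ∈ Icc 1 (Y j), w n * F (pv v n + g n) +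
        ∑ n ∈ Icc (Y j + 1) y, w n * F (pv v n + g n) := by
      have hu : Icc 1 y = Icc 1 (Y j) ∪ Icc (Y j + 1) y := by
        ext n
        rw [mem_union, mem_Icc, mem_Icc, mem_Icc]
        omega
      rw [hu, sum_union]
      rw [Finset.disjoint_left]
      intro n h1 h2
      rw [mem_Icc] at h1 h2
      omega
    rw [e2] at hv2
    have e3 : ‖∑ n ∈ Icc (Y j + 1) y, w n * F (pv v n + g n)‖ ≤ ε / 2 * x := by
      refine (norm_sum_le _ _).trans (le_trans (sum_le_sum fun n _ => ?_) (?_ : ∑ n ∈ Icc (Y j + 1) y, (1 : ℝ) ≤ _))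
      · rw [norm_mul]
        exact mul_le_one₀ (hw n) (norm_nonneg _) (hb _)
      · rw [sum_const, Nat.card_Icc, nsmul_eq_mul, mul_one]
        refine le_trans ?_ hj2
        exact_mod_cast (by omega : y + 1 - (Y j + 1) ≤ y - Y j)
    have e4 := norm_add_le (∑ n ∈ Icc 1 (Y j), w n * F (pv v n + g n)) (∑ n ∈ Icc (Y j + 1) y, w n * F (pv v n + g n))
    linarith
  have hone : ∀ j ∈ range (J + 1), ((((Bx d H).filter (fun v => ε / 2 * x < ‖∑ n ∈ Icc 1 x,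
        (if n ≤ Y j then w n else 0) * F (pv v n + g n)‖)).card : ℕ) : ℝ) ≤ ε / (J + 1) * (Bx d H).card := by
    intro j _
    have h1 := hS F hb H x hWZ hx1 hxH g hg (fun n => if n ≤ Y j then w n else 0) (fun n => by
      split_ifs
      · exact hw n
      · simp)
    have h2 := cheb (Bx d H) (fun v => ‖∑ n ∈ Icc 1 x, (if n ≤ Y j then w n else 0) * F (pv v n + g n)‖)
      (fun _ _ => norm_nonneg _) (ε / 2 * x) _ (by positivity) h1
    refine h2.trans (le_of_eq ?_)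
    field_simp
    ring
  have h1 : (((Bx d H).filter (fun v => ∃ y ≤ x, ε * x < ‖∑ n ∈ Icc 1 y, w n * F (pv v n + g n)‖)).card : ℕ) ≤
      ∑ j ∈ range (J + 1), ((Bx d H).filter (fun v => ε / 2 * x < ‖∑ n ∈ Icc 1 x,
        (if n ≤ Y j then w n else 0) * F (pv v n + g n)‖)).card :=
    (card_le_card hsub).trans card_biUnion_le
  calc ((((Bx d H).filter (fun v => ∃ y ≤ x, ε * x < ‖∑ n ∈ Icc 1 y, w n * F (pv v n + g n)‖)).card : ℕ) : ℝ) ≤
      ∑ j ∈ range (J + 1), ((((Bx d H).filter (fun v => ε / 2 * x < ‖∑ n ∈ Icc 1 x,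
        (if n ≤ Y j then w n else 0) * F (pv v n + g n)‖)).card : ℕ) : ℝ) := by exact_mod_cast h1
    _ ≤ ∑ j ∈ range (J + 1), ε / (J + 1) * (Bx d H).card := sum_le_sum hone
    _ = ε * (Bx d H).card := by
        rw [sum_const, card_range, nsmul_eq_mul]
        push_cast
        field_simp

open Classical in
/-- `k + 1` random polynomials: the weights may depend on the last `k` of them -/
theorem tuples (k d : ℕ) (hd : 1 ≤ d) (C ε : ℝ) (hε : 0 < ε) : ∃ A : ℕ, ∃ δ : ℝ, 0 < δ ∧ δ ≤ 1 ∧ ∀ H x : ℕ, A ≤ x →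
    (x : ℝ) ≤ δ * H → ∀ f : ℕ → ℝ, RMul f → FarR A H f → ∀ c : ℂ, ‖c‖ ≤ 1 →
    ∀ w : (Fin (k + 1) → Fin (d + 1) → ℤ) → ℕ → ℂ, (∀ a n, ‖w a n‖ ≤ 1) → (∀ a v n, w (Function.update a 0 v) n = w a n) →
    ∀ g : ℕ → ℤ, (∀ n, 1 ≤ n → n ≤ x → |(g n : ℝ)| ≤ C * H * n ^ d) →
    ((((Bk (k + 1) d H).filter (fun a => ∃ y ≤ x, ε * x < ‖∑ n ∈ Icc 1 y, w a n *
      sg (fun n => (f n : ℂ)) c (pv (a 0) n + g n)‖)).card : ℕ) : ℝ) ≤ ε * (Bk (k + 1) d H).card := by
  obtain ⟨e₀, he₀, h0⟩ := one d hd C ε hε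
  obtain ⟨A₁, hA₁, h1⟩ := ws_real (e₀ / 2) (by positivity)
  obtain ⟨x₀, δ, hδ0, hδ1, h2⟩ := h0 A₁
  refine ⟨max A₁ x₀, δ, hδ0, hδ1, fun H x hx hxH f hf hF c hc w hw hwu g hg => ?_⟩
  have hx1 : A₁ ≤ x := (le_max_left _ _).trans hx
  have hxH1 : x ≤ H := by
    have : (x : ℝ) ≤ H := hxH.trans (mul_le_of_le_one_left (Nat.cast_nonneg _) hδ1)
    exact_mod_cast this
  have hb : ∀ n, ‖((f n : ℝ) : ℂ)‖ ≤ 1 := fun n => by
    rw [Complex.norm_real, Real.norm_eq_abs]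
    exact hf.abs n
  have hWZ : WZ (sg (fun n => (f n : ℂ)) c) e₀ A₁ H := by
    refine wz_of _ c hc e₀ A₁ H fun X hX => ?_
    exact h1 H (hx1.trans hxH1) f hf (farR_mono hF (le_max_left _ _)) X hX
  apply fibre (k + 1) d H 0 _ ε hε.le
  intro a
  refine le_trans (le_of_eq ?_) (h2 (sg (fun n => (f n : ℂ)) c) (sg_norm hb hc) H x hWZ ((le_max_right _ _).trans hx) hxH g hg
    (w a) (hw a))
  congr 2
  apply filter_congr
  intro v _
  rw [Function.update_self]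
  simp only [hwu]

end Pool.Agent.Helper82K9.RQ
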