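import Pool.Agent.TH892.RT.RT5
import Pool.Agent.Helper82K9.EL.EL7

set_option autoImplicit false

/-! Exponential sums and residue classes in short windows of integers, at one scale and for functions on the integers;
adapted from `Pool.Agent.TH892.RT.RT1` (starting files). -/

namespace Pool.Agent.Helper82K9.RQ

open Finset
open Pool.Agent.Helper112 (ee ls_ee_zero ls_ee_add ls_ee_int ls_norm_ee ls_conj_ee)
open Pool.Agent.W110.HV (SN AD AD_nonneg AD_weighted frac_sum orth mul_conj_norm)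
open Pool.Agent.TH892.RT (ee_eq PW PW_zero sum_toNat class_pars sqrt_sum_le)

/-- the exponential sum over the window `(u, u + W]` -/
noncomputable def WF (F : ℤ → ℂ) (W : ℕ) (u : ℤ) (α : ℝ) : ℂ := SN W (fun n => F (u + n)) α

/-- the function of the integers which is `h` at the positive and `c h(-u)` at the negative integers -/
def sg (h : ℕ → ℂ) (c : ℂ) (u : ℤ) : ℂ := if 0 < u then h u.toNat else if u < 0 then c * h (-u).toNat else 0

lemma sg_norm {h : ℕ → ℂ} (hb : ∀ n, ‖h n‖ ≤ 1) {c : ℂ} (hc : ‖c‖ ≤ 1) (u : ℤ) : ‖sg h c u‖ ≤ 1 := by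
  unfold sg
  split_ifs
  · exact hb _
  · rw [norm_mul]
    exact mul_le_one₀ hc (norm_nonneg _) (hb _)
  · simp

lemma WF_le (h : ℕ → ℂ) (c : ℂ) (hc : ‖c‖ ≤ 1) (X W : ℕ) (hW : W ≤ X) (α : ℝ) (u : ℤ) (hu : u ∈ Icc (-(X : ℤ)) X) :
    ‖WF (sg h c) W u α‖ ≤ ‖PW h X W α (u + W).toNat‖ + ‖PW h X W (-α) (-u - 1).toNat‖ := by
  rw [mem_Icc] at hu
  have e1 : WF (sg h c) W u α = ee (-(u : ℝ) * α) * ∑ v ∈ Ioc u (u + W), sg h c v * ee (v * α) := by
    unfold WF SN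
    rw [mul_sum]
    apply sum_nbij' (fun n : ℕ => u + (n : ℤ)) (fun v : ℤ => (v - u).toNat)
    · intro n hn
      rw [mem_Icc] at hn
      rw [mem_Ioc]; omega
    · intro v hv
      rw [mem_Ioc] at hv
      rw [mem_Icc]; omega
    · intro n hn
      simp
    · intro v hv
      rw [mem_Ioc] at hv
      omega
    · intro n hn
      have : ee ((n : ℝ) * α) = ee (-(u : ℝ) * α) * ee (((u + (n : ℤ) : ℤ) : ℝ) * α) := by
        rw [← ls_ee_add]
        congr 1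
        push_cast
        ring
      rw [this]
      ring
  have e2 : ∑ v ∈ Ioc u (u + W), sg h c v * ee (v * α) = PW h X W α (u + W).toNat + c * PW h X W (-α) (-u - 1).toNat := by
    rw [← sum_filter_add_sum_filter_not (Ioc u (u + W)) (fun v => 0 < v),
      ← sum_filter_add_sum_filter_not ((Ioc u (u + W)).filter (fun v => ¬ 0 < v)) (fun v => v < 0)]
    congr 1
    · unfold PW
      rw [← sum_filter]
      apply sum_nbij' (fun v : ℤ => v.toNat) (fun n : ℕ => (n : ℤ))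
      · intro v hv
        rw [mem_filter, mem_Ioc] at hv
        rw [mem_filter, mem_Icc]; omega
      · intro n hn
        rw [mem_filter, mem_Icc] at hn
        rw [mem_filter, mem_Ioc]; omega
      · intro v hv
        rw [mem_filter, mem_Ioc] at hv
        omega
      · intro n hn
        simp
      · intro v hv
        rw [mem_filter, mem_Ioc] at hv
        rw [ee_eq]
        unfold sg
        have h2 : ((v.toNat : ℕ) : ℝ) = (v : ℝ) := by
          have : ((v.toNat : ℕ) : ℤ) = v := by omega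
          exact_mod_cast this
        rw [if_pos hv.2, h2]
    have e3 : ∑ v ∈ ((Ioc u (u + W)).filter (fun v => ¬ 0 < v)).filter (fun v => ¬ v < 0), sg h c v * ee (v * α) = 0 := by
      apply sum_eq_zero
      intro v hv
      rw [mem_filter, mem_filter] at hv
      unfold sg
      rw [if_neg hv.1.2, if_neg hv.2, zero_mul]
    rw [e3, add_zero]
    · unfold PW
      rw [← sum_filter, mul_sum]
      apply sum_nbij' (fun v : ℤ => (-v).toNat) (fun n : ℕ => -(n : ℤ))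
      · intro v hv
        rw [mem_filter, mem_filter, mem_Ioc] at hv
        rw [mem_filter, mem_Icc]; omega
      · intro n hn
        rw [mem_filter, mem_Icc] at hn
        rw [mem_filter, mem_filter, mem_Ioc]; omega
      · intro v hv
        rw [mem_filter, mem_filter, mem_Ioc] at hv
        omega
      · intro n hn
        simp
      · intro v hv
        rw [mem_filter, mem_filter, mem_Ioc] at hv
        rw [ee_eq]
        unfold sg
        have h2 : (((-v).toNat : ℕ) : ℝ) = -(v : ℝ) := by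
          have : (((-v).toNat : ℕ) : ℤ) = -v := by omega
          exact_mod_cast this
        rw [if_neg hv.1.2, if_pos hv.2, h2, neg_mul_neg, mul_assoc]
  rw [e1, norm_mul, ls_norm_ee, one_mul, e2]
  refine (norm_add_le _ _).trans ?_
  rw [norm_mul]
  apply add_le_add le_rfl
  exact mul_le_of_le_one_left (norm_nonneg _) hc

/-- the exponential sums in the windows are small on average at all the scales `X ≥ X₁` -/
def WZ (F : ℤ → ℂ) (ε : ℝ) (W₀ X₁ : ℕ) : Prop := ∀ X : ℕ, X₁ ≤ X → ∀ W : ℕ, W₀ ≤ W → W ≤ X → ∀ α : ℝ,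
  ∑ u ∈ Icc (-(X : ℤ)) X, ‖WF F W u α‖ ≤ ε * W * X

/-- from the windows of natural numbers to the windows of integers -/
lemma wz_of (h : ℕ → ℂ) (c : ℂ) (hc : ‖c‖ ≤ 1) (ε : ℝ) (W₀ X₁ : ℕ)
    (hE : ∀ X : ℕ, X₁ ≤ X → Pool.Agent.Helper82K9.EL.WS h (ε / 2) W₀ X) : WZ (sg h c) ε W₀ X₁ := by
  intro X hX W hW1 hW2 α
  have k1 := hE X hX W hW1 hW2 α
  have k2 := hE X hX W hW1 hW2 (-α)
  have s1 : ∑ u ∈ Icc (-(X : ℤ)) X, ‖PW h X W α (u + W).toNat‖ ≤ ε / 2 * W * X := by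
    refine (sum_toNat (fun z => ‖PW h X W α z‖) (fun z => norm_nonneg _) (by simp [PW_zero]) _ (fun u => u + W)
      (fun a b hab => by simpa using hab) (3 * X) ?_).trans k1
    intro u hu
    rw [mem_Icc] at hu
    push_cast; omega
  have s2 : ∑ u ∈ Icc (-(X : ℤ)) X, ‖PW h X W (-α) (-u - 1).toNat‖ ≤ ε / 2 * W * X := by
    refine (sum_toNat (fun z => ‖PW h X W (-α) z‖) (fun z => norm_nonneg _) (by simp [PW_zero]) _ (fun u => -u - 1)
      (fun a b hab => by simpa using hab) (3 * X) ?_).trans k2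
    intro u hu
    rw [mem_Icc] at hu
    push_cast; omega
  calc ∑ u ∈ Icc (-(X : ℤ)) X, ‖WF (sg h c) W u α‖ ≤ ∑ u ∈ Icc (-(X : ℤ)) X, (‖PW h X W α (u + W).toNat‖ +
        ‖PW h X W (-α) (-u - 1).toNat‖) := sum_le_sum fun u hu => WF_le h c hc X W hW2 α u hu
    _ ≤ ε / 2 * W * X + ε / 2 * W * X := by
      rw [sum_add_distrib]
      linarith
    _ = _ := by ring

/-- the part of the window `(u, u + W]` in a residue class -/
noncomputable def CL (F : ℤ → ℂ) (W : ℕ) (u : ℤ) (q r : ℕ) : ℂ :=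
  ∑ n ∈ (Icc 1 W).filter (fun n => n % q = r), F (u + n)

/-- the mean square over all residue classes modulo all `q ∈ [Q₀, x]` -/
lemma class_sq (F : ℤ → ℂ) (hb : ∀ u, ‖F u‖ ≤ 1) (W : ℕ) (u : ℤ) (Q0 x F0 : ℕ) (hQ0 : 1 ≤ Q0) (hF0 : 1 ≤ F0) :
    ∑ q ∈ Icc Q0 x, ∑ r ∈ range q, ‖CL F W u q r‖ ^ 2 ≤
      (x : ℝ) / Q0 * (∑ D ∈ Icc 1 F0, AD W (fun n => F (u + n)) D + 12 * ((W : ℝ) / F0 + x) * W) := by
  set g : ℕ → ℂ := fun n => F (u + n) with hg
  have hQ0r : (0 : ℝ) < Q0 := by exact_mod_cast hQ0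
  have h1 : ∀ q ∈ Icc Q0 x, ∑ r ∈ range q, ‖CL F W u q r‖ ^ 2 ≤
      ∑ D ∈ Icc 1 x, if D ∣ q then 1 / (Q0 : ℝ) * AD W g D else 0 := by
    intro q hq
    rw [mem_Icc] at hq
    have hq0 : 0 < q := by omega
    have hqr : (0 : ℝ) < q := by exact_mod_cast hq0
    have e1 := class_pars W g q hq0
    have e2 : ∑ b ∈ range q, ‖SN W g ((b : ℝ) / q)‖ ^ 2 = ∑ D ∈ q.divisors, AD W g D :=
      frac_sum q hq0 (fun _ θ => ‖SN W g θ‖ ^ 2)
    have e3 : ∑ r ∈ range q, ‖CL F W u q r‖ ^ 2 = 1 / (q : ℝ) * ∑ D ∈ q.divisors, AD W g D := by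
      rw [← e2, ← e1, hg]
      unfold CL
      field_simp
    rw [e3]
    have e4 : q.divisors = (Icc 1 x).filter (fun D => D ∣ q) := by
      ext D
      rw [Nat.mem_divisors, mem_filter, mem_Icc]
      constructor
      · rintro ⟨hd, _⟩
        exact ⟨⟨Nat.pos_of_dvd_of_pos hd hq0, (Nat.le_of_dvd hq0 hd).trans hq.2⟩, hd⟩
      · rintro ⟨_, hd⟩
        exact ⟨hd, hq0.ne'⟩
    rw [← sum_filter, ← e4, ← mul_sum]
    apply mul_le_mul_of_nonneg_right _ (sum_nonneg fun D _ => AD_nonneg _ _ _)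
    exact one_div_le_one_div_of_le hQ0r (by exact_mod_cast hq.1)
  have h2 : ∑ D ∈ Icc 1 x, ∑ q ∈ Icc Q0 x, (if D ∣ q then 1 / (Q0 : ℝ) * AD W g D else 0) ≤
      (x : ℝ) / Q0 * ∑ D ∈ Icc 1 x, AD W g D / D := by
    rw [mul_sum]
    apply sum_le_sum
    intro D hD
    rw [mem_Icc] at hD
    rw [← sum_filter, sum_const, nsmul_eq_mul]
    have hDr : (0 : ℝ) < D := by exact_mod_cast hD.1
    have c1 : ((((Icc Q0 x).filter (fun q => D ∣ q)).card : ℕ) : ℝ) ≤ (x : ℝ) / D := by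
      have : ((Icc Q0 x).filter (fun q => D ∣ q)).card ≤ x / D := by
        rw [← Nat.Ioc_filter_dvd_card_eq_div]
        apply card_le_card
        intro q hq
        rw [mem_filter, mem_Icc] at hq
        rw [mem_filter, mem_Ioc]
        exact ⟨⟨by omega, hq.1.2⟩, hq.2⟩
      calc ((((Icc Q0 x).filter (fun q => D ∣ q)).card : ℕ) : ℝ) ≤ ((x / D : ℕ) : ℝ) := by exact_mod_cast this
        _ ≤ _ := Nat.cast_div_le
    calc ((((Icc Q0 x).filter (fun q => D ∣ q)).card : ℕ) : ℝ) * (1 / (Q0 : ℝ) * AD W g D)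
        ≤ (x : ℝ) / D * (1 / (Q0 : ℝ) * AD W g D) :=
          mul_le_mul_of_nonneg_right c1 (mul_nonneg (by positivity) (AD_nonneg _ _ _))
      _ = _ := by ring
  have h3 : ∑ D ∈ Icc 1 x, AD W g D / D ≤ ∑ D ∈ Icc 1 F0, AD W g D + ∑ D ∈ Icc F0 x, AD W g D / D := by
    calc ∑ D ∈ Icc 1 x, AD W g D / D ≤ ∑ D ∈ Icc 1 F0 ∪ Icc F0 x, AD W g D / D := by
          apply sum_le_sum_of_subset_of_nonneg
          · intro D hD
            rw [mem_Icc] at hD
            rw [mem_union, mem_Icc, mem_Icc]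
            omega
          · intro D _ _
            exact div_nonneg (AD_nonneg _ _ _) (by positivity)
      _ ≤ ∑ D ∈ Icc 1 F0, AD W g D / D + ∑ D ∈ Icc F0 x, AD W g D / D := by
          rw [← sum_union_inter]
          exact le_add_of_nonneg_right (sum_nonneg fun D _ => div_nonneg (AD_nonneg _ _ _) (by positivity))
      _ ≤ _ := by
          apply add_le_add _ le_rfl
          apply sum_le_sum
          intro D hD
          rw [mem_Icc] at hD
          exact div_le_self (AD_nonneg _ _ _) (by exact_mod_cast hD.1)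
  have h4 : ∑ D ∈ Icc F0 x, AD W g D / D ≤ 12 * ((W : ℝ) / F0 + x) * W := by
    refine (AD_weighted W g F0 x hF0).trans ?_
    apply mul_le_mul_of_nonneg_left _ (by positivity)
    calc ∑ n ∈ Icc 1 W, ‖g n‖ ^ 2 ≤ ∑ n ∈ Icc 1 W, (1 : ℝ) := by
          apply sum_le_sum
          intro n _
          have := hb (u + n)
          exact pow_le_one₀ (norm_nonneg _) this
      _ = W := by simp
  calc ∑ q ∈ Icc Q0 x, ∑ r ∈ range q, ‖CL F W u q r‖ ^ 2 ≤
        ∑ q ∈ Icc Q0 x, ∑ D ∈ Icc 1 x, (if D ∣ q then 1 / (Q0 : ℝ) * AD W g D else 0) := sum_le_sum h1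
    _ = ∑ D ∈ Icc 1 x, ∑ q ∈ Icc Q0 x, (if D ∣ q then 1 / (Q0 : ℝ) * AD W g D else 0) := sum_comm
    _ ≤ (x : ℝ) / Q0 * ∑ D ∈ Icc 1 x, AD W g D / D := h2
    _ ≤ _ := by
        apply mul_le_mul_of_nonneg_left _ (by positivity)
        linarith

/-- the residue classes modulo all `q ∈ [Q₀, x]` -/
noncomputable def Phi (F : ℤ → ℂ) (W Q0 x : ℕ) (u : ℤ) : ℝ := ∑ q ∈ Icc Q0 x, ∑ r ∈ range q, ‖CL F W u q r‖

lemma Phi_nonneg (F : ℤ → ℂ) (W Q0 x : ℕ) (u : ℤ) : 0 ≤ Phi F W Q0 x u :=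
  sum_nonneg fun _ _ => sum_nonneg fun _ _ => norm_nonneg _

lemma Phi_le (F : ℤ → ℂ) (hb : ∀ u, ‖F u‖ ≤ 1) (W : ℕ) (u : ℤ) (Q0 x F0 : ℕ) (hQ0 : 1 ≤ Q0) (hF0 : 1 ≤ F0) :
    Phi F W Q0 x u ≤ x * Real.sqrt ((x : ℝ) / Q0) * (∑ D ∈ Icc 1 F0, ∑ a ∈ range D, ‖WF F W u ((a : ℝ) / D)‖ +
      Real.sqrt (12 * ((W : ℝ) / F0 + x) * W)) := by
  have h1 := class_sq F hb W u Q0 x F0 hQ0 hF0
  set A := ∑ D ∈ Icc 1 F0, AD W (fun n => F (u + n)) D with hA
  set B := 12 * ((W : ℝ) / F0 + x) * W with hB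
  have hA0 : 0 ≤ A := sum_nonneg fun D _ => AD_nonneg _ _ _
  have hB0 : 0 ≤ B := by positivity
  have h2 : Phi F W Q0 x u ^ 2 ≤ (x : ℝ) ^ 2 * ((x : ℝ) / Q0 * (A + B)) := by
    unfold Phi
    rw [sum_sigma']
    refine (sq_sum_le_card_mul_sum_sq (s := (Icc Q0 x).sigma fun q => range q)
      (f := fun p => ‖CL F W u p.1 p.2‖)).trans ?_
    rw [← sum_sigma' (Icc Q0 x) (fun q => range q) (fun q r => ‖CL F W u q r‖ ^ 2)]
    apply mul_le_mul _ h1 (sum_nonneg fun _ _ => sum_nonneg fun _ _ => by positivity) (by positivity)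
    rw [card_sigma]
    push_cast
    calc ∑ q ∈ Icc Q0 x, ((range q).card : ℝ) ≤ ∑ q ∈ Icc Q0 x, (x : ℝ) := by
          apply sum_le_sum
          intro q hq
          rw [mem_Icc] at hq
          rw [card_range]
          exact_mod_cast hq.2
      _ ≤ (x : ℝ) ^ 2 := by
          rw [sum_const, nsmul_eq_mul, sq]
          apply mul_le_mul_of_nonneg_right _ (by positivity)
          rw [Nat.card_Icc]
          exact_mod_cast (by omega : x + 1 - Q0 ≤ x)
  have h3 : Phi F W Q0 x u ≤ x * Real.sqrt ((x : ℝ) / Q0) * (Real.sqrt A + Real.sqrt B) := by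
    apply le_of_sq_le_sq _ (by positivity)
    refine h2.trans ?_
    rw [mul_pow, mul_pow, Real.sq_sqrt (by positivity)]
    have : A + B ≤ (Real.sqrt A + Real.sqrt B) ^ 2 := by
      have s1 := Real.sq_sqrt hA0
      have s2 := Real.sq_sqrt hB0
      have s3 : 0 ≤ Real.sqrt A * Real.sqrt B := by positivity
      nlinarith
    calc (x : ℝ) ^ 2 * ((x : ℝ) / Q0 * (A + B)) ≤ (x : ℝ) ^ 2 * ((x : ℝ) / Q0 * (Real.sqrt A + Real.sqrt B) ^ 2) := by
          gcongr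
      _ = _ := by ring
  refine h3.trans ?_
  apply mul_le_mul_of_nonneg_left _ (by positivity)
  apply add_le_add _ le_rfl
  rw [hA]
  have h4 : ∑ D ∈ Icc 1 F0, AD W (fun n => F (u + n)) D ≤
      ∑ D ∈ Icc 1 F0, ∑ a ∈ range D, ‖WF F W u ((a : ℝ) / D)‖ ^ 2 := by
    apply sum_le_sum
    intro D _
    unfold AD WF
    apply sum_le_sum_of_subset_of_nonneg (filter_subset _ _)
    intro a _ _
    positivity
  refine (Real.sqrt_le_sqrt h4).trans ?_
  rw [sum_sigma', sum_sigma']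
  exact sqrt_sum_le _ (fun p : (Σ _ : ℕ, ℕ) => ‖WF F W u ((p.2 : ℝ) / p.1)‖) (fun _ => norm_nonneg _)

/-- the residue classes in the windows: the sum over all windows -/
lemma Phi_sum (ε : ℝ) (hε : 0 < ε) (κ : ℝ) (hκ : 0 < κ) :
    ∃ e : ℝ, 0 < e ∧ ∃ δ : ℝ, 0 < δ ∧ ∀ (F : ℤ → ℂ), (∀ u, ‖F u‖ ≤ 1) → ∀ W₀ X₁ : ℕ, 1 ≤ X₁ → WZ F e W₀ X₁ →
      ∀ X : ℕ, X₁ ≤ X → ∀ W : ℕ, W₀ ≤ W → W ≤ X → ∀ x Q0 : ℕ, 1 ≤ Q0 → κ * x ≤ Q0 →
      (x : ℝ) ≤ δ * W → ∑ u ∈ Icc (-(X : ℤ)) X, Phi F W Q0 x u ≤ ε * x * W * X := by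
  set η : ℝ := ε * Real.sqrt κ / 4 with hη
  have hη0 : 0 < η := by positivity
  obtain ⟨F0, hF0⟩ := exists_nat_gt (24 / η ^ 2)
  have hF0r : (0 : ℝ) < F0 := lt_trans (by positivity) hF0
  have hF01 : 1 ≤ F0 := by exact_mod_cast hF0r
  refine ⟨η / (F0 : ℝ) ^ 2, by positivity, η ^ 2 / 24, by positivity, fun F hb W₀ X₁ hX₁ hX X hX1 W hW1 hW2 x Q0 hQ0 hκx hxW => ?_⟩
  have hX2 : (1 : ℝ) ≤ X := by exact_mod_cast hX₁.trans hX1
  have hQ0r : (0 : ℝ) < Q0 := by exact_mod_cast hQ0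
  have r1 : Real.sqrt ((x : ℝ) / Q0) ≤ 1 / Real.sqrt κ := by
    rw [← Real.sqrt_one, ← Real.sqrt_div zero_le_one]
    apply Real.sqrt_le_sqrt
    rw [div_le_div_iff₀ hQ0r hκ]
    linarith
  have r2 : Real.sqrt (12 * ((W : ℝ) / F0 + x) * W) ≤ η * W := by
    apply Real.sqrt_le_iff.2
    refine ⟨by positivity, ?_⟩
    have t1 : (W : ℝ) / F0 ≤ η ^ 2 / 24 * W := by
      rw [div_lt_iff₀ (by positivity)] at hF0
      rw [div_le_iff₀ hF0r]
      have : (1 : ℝ) * W ≤ (η ^ 2 * F0 / 24) * W := by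
        apply mul_le_mul_of_nonneg_right _ (by positivity)
        linarith
      linarith
    calc 12 * ((W : ℝ) / F0 + x) * W ≤ 12 * (η ^ 2 / 24 * W + η ^ 2 / 24 * W) * W := by gcongr
      _ = _ := by ring
  have r3 : ∑ u ∈ Icc (-(X : ℤ)) X, ∑ D ∈ Icc 1 F0, ∑ a ∈ range D, ‖WF F W u ((a : ℝ) / D)‖ ≤ η * W * X := by
    rw [sum_comm]
    have : ∀ D ∈ Icc 1 F0, ∑ u ∈ Icc (-(X : ℤ)) X, ∑ a ∈ range D, ‖WF F W u ((a : ℝ) / D)‖ ≤ F0 * (η / (F0 : ℝ) ^ 2 * W * X) := by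
      intro D hD
      rw [mem_Icc] at hD
      rw [sum_comm]
      refine (sum_le_sum fun (a : ℕ) _ => hX X hX1 W hW1 hW2 ((a : ℝ) / D)).trans ?_
      rw [sum_const, card_range, nsmul_eq_mul]
      apply mul_le_mul_of_nonneg_right _ (by positivity)
      exact_mod_cast hD.2
    refine (sum_le_sum this).trans ?_
    rw [sum_const, Nat.card_Icc, nsmul_eq_mul, Nat.add_sub_cancel]
    have : (F0 : ℝ) * (F0 * (η / (F0 : ℝ) ^ 2 * W * X)) = η * W * X := by
      field_simp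
    rw [this]
  calc ∑ u ∈ Icc (-(X : ℤ)) X, Phi F W Q0 x u ≤ ∑ u ∈ Icc (-(X : ℤ)) X, x * (1 / Real.sqrt κ) *
        (∑ D ∈ Icc 1 F0, ∑ a ∈ range D, ‖WF F W u ((a : ℝ) / D)‖ + η * W) := by
        apply sum_le_sum
        intro u _
        refine (Phi_le F hb W u Q0 x F0 hQ0 hF01).trans ?_
        gcongr
    _ = x * (1 / Real.sqrt κ) * (∑ u ∈ Icc (-(X : ℤ)) X, ∑ D ∈ Icc 1 F0, ∑ a ∈ range D, ‖WF F W u ((a : ℝ) / D)‖ +
        (2 * X + 1) * (η * W)) := by
        rw [← mul_sum, sum_add_distrib, sum_const, nsmul_eq_mul, Int.card_Icc]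
        congr 3
        have : ((X : ℤ) + 1 - -(X : ℤ)).toNat = 2 * X + 1 := by omega
        rw [this]
        push_cast
        ring
    _ ≤ x * (1 / Real.sqrt κ) * (η * W * X + (2 * X + X) * (η * W)) := by gcongr
    _ = _ := by
        rw [hη]
        have : Real.sqrt κ ≠ 0 := by positivity
        field_simp
        ring


end Pool.Agent.Helper82K9.RQ
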