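import Pool.Agent.Helper82K9.RQ.RQ3
import Pool.Agent.TH892.RT.RT6

set_option autoImplicit false

/-! Real multiplicative functions at random linear forms with natural coefficients; adapted from
`Pool.Agent.TH892.RT.RT6` (starting files). -/

namespace Pool.Agent.Helper82K9.RQ

open Finset
open Pool.Agent.TH892.RT (Bx pv Bk card_Bk card_Bx pairs card_pairs)
open Pool.Agent.Helper82K9.EL (RMul FarR)

/-- the distance to a character grows by at most a constant when the scale is doubled -/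
lemma farR_half {A N H : ℕ} {f : ℕ → ℝ} (hf : ∀ n, |f n| ≤ 1) (hH1 : 1 ≤ H) (hH : N ≤ 2 * H) (h : FarR (A + 4) N f) : FarR A H f := by
  intro q χ h1 h2 h3
  have h4 := h q χ h1 (by omega) h3
  have hterm : ∀ p ∈ (Icc 1 (2 * H)).filter Nat.Prime, (0 : ℝ) ≤ (1 - ((f p : ℂ) * χ (p : ZMod q)).re) / (p : ℝ) ∧
      (1 - ((f p : ℂ) * χ (p : ZMod q)).re) / (p : ℝ) ≤ 2 / p := by
    intro p hp
    have hp0 : (0 : ℝ) < p := by
      rw [mem_filter, mem_Icc] at hp
      exact_mod_cast (by omega : 0 < p)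
    have h5 : ‖(f p : ℂ) * χ (p : ZMod q)‖ ≤ 1 := by
      rw [norm_mul]
      refine mul_le_one₀ ?_ (norm_nonneg _) (DirichletCharacter.norm_le_one χ _)
      rw [Complex.norm_real, Real.norm_eq_abs]
      exact hf p
    have h6 := Complex.abs_re_le_norm ((f p : ℂ) * χ (p : ZMod q))
    have h7 := abs_le.1 (h6.trans h5)
    constructor
    · apply div_nonneg _ hp0.le
      linarith
    · gcongr
      linarith
  have hH0 : (0 : ℝ) < H := by exact_mod_cast hH1
  unfold Pool.Agent.Helper82K9.EL.dstR at h4 ⊢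
  have e1 : ∑ p ∈ (Icc 1 N).filter Nat.Prime, (1 - ((f p : ℂ) * χ (p : ZMod q)).re) / (p : ℝ) ≤
      ∑ p ∈ (Icc 1 H).filter Nat.Prime, (1 - ((f p : ℂ) * χ (p : ZMod q)).re) / (p : ℝ) +
      ∑ p ∈ (Icc (H + 1) (2 * H)).filter Nat.Prime, (1 - ((f p : ℂ) * χ (p : ZMod q)).re) / (p : ℝ) := by
    rw [← sum_union]
    · apply sum_le_sum_of_subset_of_nonneg
      · intro p hp
        rw [mem_filter, mem_Icc] at hp
        rw [mem_union, mem_filter, mem_filter, mem_Icc, mem_Icc]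
        by_cases h5 : p ≤ H
        · exact Or.inl ⟨⟨hp.1.1, h5⟩, hp.2⟩
        · exact Or.inr ⟨⟨by omega, by omega⟩, hp.2⟩
      · intro p hp _
        refine (hterm p ?_).1
        rw [mem_union, mem_filter, mem_filter, mem_Icc, mem_Icc] at hp
        rw [mem_filter, mem_Icc]
        rcases hp with hp | hp
        · exact ⟨⟨hp.1.1, by omega⟩, hp.2⟩
        · exact ⟨⟨by omega, hp.1.2⟩, hp.2⟩
    · rw [Finset.disjoint_left]
      intro p h5 h6
      rw [mem_filter, mem_Icc] at h5 h6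
      omega
  have e2 : ∑ p ∈ (Icc (H + 1) (2 * H)).filter Nat.Prime, (1 - ((f p : ℂ) * χ (p : ZMod q)).re) / (p : ℝ) ≤ 4 := by
    calc _ ≤ ∑ p ∈ (Icc (H + 1) (2 * H)).filter Nat.Prime, 2 / (H : ℝ) := by
          apply sum_le_sum
          intro p hp
          rw [mem_filter, mem_Icc] at hp
          refine (hterm p (mem_filter.2 ⟨mem_Icc.2 ⟨by omega, hp.1.2⟩, hp.2⟩)).2.trans ?_
          have : (H : ℝ) ≤ p := by exact_mod_cast (by omega : H ≤ p)
          gcongr
      _ ≤ ∑ p ∈ Icc (H + 1) (2 * H), 2 / (H : ℝ) :=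
          sum_le_sum_of_subset_of_nonneg (filter_subset _ _) (fun _ _ _ => by positivity)
      _ = 2 := by
          rw [sum_const, Nat.card_Icc, nsmul_eq_mul]
          have : 2 * H + 1 - (H + 1) = H := by omega
          rw [this]
          field_simp
      _ ≤ 4 := by norm_num
  push_cast at h4
  linarith

open Classical in
/-- `k + 1` random linear forms with natural coefficients -/
theorem forms (k : ℕ) (ε : ℝ) (hε : 0 < ε) : ∃ A : ℕ, ∃ δ : ℝ, 0 < δ ∧ ∀ N x : ℕ, A ≤ x →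
    (x : ℝ) ≤ δ * N → ∀ f : ℕ → ℝ, RMul f → FarR A N f → ∀ c : ℂ, ‖c‖ ≤ 1 →
    ∀ w : (Fin (k + 1) → ℕ × ℕ) → ℕ → ℂ, (∀ a n, ‖w a n‖ ≤ 1) → (∀ a v n, w (Function.update a 0 v) n = w a n) →
    ((((pairs (k + 1) N).filter (fun p => ∃ y ≤ x, ε * x < ‖∑ n ∈ Icc 1 y, w p n *
      sg (fun n => (f n : ℂ)) c (((p 0).1 * n + (p 0).2 : ℕ) : ℤ)‖)).card : ℕ) : ℝ) ≤ ε * (pairs (k + 1) N).card := by
  obtain ⟨A, δ, hδ0, hδ1, hS⟩ := tuples k 1 le_rfl 3 (min ε (ε / 9 ^ (k + 1))) (by positivity)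
  refine ⟨A + 4, min (δ / 2) 1, by positivity, fun N x hx0 hxN f hf hF c hc w hw hwu => ?_⟩
  have hx1 : A ≤ x := by omega
  have hx2 : 1 ≤ x := by omega
  have hN0 : (0 : ℝ) ≤ N := by positivity
  have hxN1 : (x : ℝ) ≤ N := hxN.trans (by
    have := min_le_right (δ / 2) 1
    nlinarith)
  have hN1 : 1 ≤ N := hx2.trans (by exact_mod_cast hxN1)
  obtain ⟨H, hH⟩ : ∃ H : ℕ, H = (N + 1) / 2 := ⟨_, rfl⟩
  have hH1 : N ≤ 2 * H := by omega
  have hH2 : 2 * H ≤ N + 1 := by omega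
  have hHr : (N : ℝ) ≤ 2 * H := by exact_mod_cast hH1
  have hHr1 : (1 : ℝ) ≤ H := by
    have : 1 ≤ H := by omega
    exact_mod_cast this
  have hxH : (x : ℝ) ≤ δ * H := by
    refine hxN.trans ?_
    calc min (δ / 2) 1 * (N : ℝ) ≤ δ / 2 * (2 * H) := by
          have := min_le_left (δ / 2) 1
          gcongr
      _ = _ := by ring
  obtain ⟨ψ, hψ⟩ : ∃ ψ : (Fin (k + 1) → Fin (1 + 1) → ℤ) → (Fin (k + 1) → ℕ × ℕ), ψ = fun a i =>
    ((a i 1 + ((H : ℤ) + 1)).toNat, (a i 0 + (H : ℤ)).toNat) := ⟨_, rfl⟩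
  have key := hS H x hx1 hxH f hf (farR_half hf.abs (by omega) hH1 hF) c hc (fun a n => w (ψ a) n) (fun a n => hw _ n) (by
      intro a v n
      have : ψ (Function.update a 0 v) = Function.update (ψ a) 0 ((v 1 + ((H : ℤ) + 1)).toNat, (v 0 + (H : ℤ)).toNat) := by
        funext i
        rw [hψ]
        simp only
        by_cases hi : i = 0
        · subst hi
          rw [Function.update_self, Function.update_self]
        · rw [Function.update_of_ne hi, Function.update_of_ne hi]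
      show w (ψ (Function.update a 0 v)) n = w (ψ a) n
      rw [this, hwu]) (fun n => ((H : ℤ) + 1) * n + H) (by
    intro n hn _
    have hn' : (1 : ℝ) ≤ n := by exact_mod_cast hn
    push_cast
    rw [abs_of_nonneg (by positivity), pow_one]
    nlinarith)
  obtain ⟨φ, hφ⟩ : ∃ φ : (Fin (k + 1) → ℕ × ℕ) → (Fin (k + 1) → Fin (1 + 1) → ℤ), φ = fun p i j =>
    if j = 0 then ((p i).2 : ℤ) - H else ((p i).1 : ℤ) - (H + 1) := ⟨_, rfl⟩
  have hφi : ∀ p q, φ p = φ q → p = q := by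
    intro p q hpq
    funext i
    have h0 := congrFun (congrFun hpq i) 0
    have h1 := congrFun (congrFun hpq i) 1
    rw [hφ] at h0 h1
    simp only [if_true, Fin.isValue, one_ne_zero, if_false] at h0 h1
    ext <;> omega
  have hψφ : ∀ p, ψ (φ p) = p := by
    intro p
    funext i
    rw [hψ, hφ]
    simp only [if_true, Fin.isValue, one_ne_zero, if_false]
    ext
    · simp
    · simp
  have hφB : ∀ p ∈ pairs (k + 1) N, φ p ∈ Bk (k + 1) 1 H := by
    intro p hp
    unfold pairs at hp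
    rw [Fintype.mem_piFinset] at hp
    unfold Bk Bx
    rw [Fintype.mem_piFinset]
    intro i
    rw [Fintype.mem_piFinset]
    intro j
    have := hp i
    rw [mem_product, mem_Icc, mem_range] at this
    rw [hφ, mem_Icc]
    simp only
    split_ifs <;> omega
  have hval : ∀ (p : Fin (k + 1) → ℕ × ℕ) (n : ℕ), pv (φ p 0) n + (((H : ℤ) + 1) * n + H) =
      (((p 0).1 * n + (p 0).2 : ℕ) : ℤ) := by
    intro p n
    unfold pv
    rw [hφ]
    rw [Fin.sum_univ_two]
    simp only [Fin.isValue, if_true, Fin.val_zero, pow_zero, mul_one, one_ne_zero, if_false, Fin.val_one, pow_one]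
    push_cast
    ring
  have h1 : ((pairs (k + 1) N).filter (fun p => ∃ y ≤ x, ε * x < ‖∑ n ∈ Icc 1 y, w p n *
      sg (fun n => (f n : ℂ)) c (((p 0).1 * n + (p 0).2 : ℕ) : ℤ)‖)).card ≤
      ((Bk (k + 1) 1 H).filter (fun a => ∃ y ≤ x, min ε (ε / 9 ^ (k + 1)) * x < ‖∑ n ∈ Icc 1 y, w (ψ a) n *
      sg (fun n => (f n : ℂ)) c (pv (a 0) n + (((H : ℤ) + 1) * n + H))‖)).card := by
    apply card_le_card_of_injOn φ
    · intro p hp
      rw [mem_coe, mem_filter] at hp
      obtain ⟨hp1, y, hy, hp2⟩ := hp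
      rw [mem_coe, mem_filter]
      refine ⟨hφB p hp1, y, hy, ?_⟩
      rw [hψφ]
      simp only [hval]
      refine lt_of_le_of_lt ?_ hp2
      have := min_le_left ε (ε / 9 ^ (k + 1))
      gcongr
    · intro p _ q _ hpq
      exact hφi p q hpq
  have h2 : ((Bk (k + 1) 1 H).card : ℝ) ≤ 9 ^ (k + 1) * (pairs (k + 1) N).card := by
    rw [card_Bk, card_pairs]
    push_cast
    rw [card_Bx, ← mul_pow]
    apply pow_le_pow_left₀ (by positivity)
    have h3 : (2 * (H : ℝ) + 1) ≤ N + 2 := by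
      have : (2 * (H : ℝ)) ≤ N + 1 := by exact_mod_cast hH2
      linarith
    have h4 : (1 : ℝ) ≤ N := by exact_mod_cast hN1
    have h5 : (0 : ℝ) ≤ 2 * (H : ℝ) + 1 := by positivity
    have h6 : (2 * (H : ℝ) + 1) ≤ 3 * N := by linarith
    calc (2 * (H : ℝ) + 1) ^ (1 + 1) ≤ (3 * (N : ℝ)) ^ (1 + 1) := pow_le_pow_left₀ h5 h6 _
      _ = 9 * (N * N) := by ring
      _ ≤ 9 * ((N : ℝ) * (N + 1)) := by
          have : (N : ℝ) ≤ N + 1 := by linarith
          gcongr
  calc _ ≤ _ := by exact_mod_cast h1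
    _ ≤ min ε (ε / 9 ^ (k + 1)) * (Bk (k + 1) 1 H).card := key
    _ ≤ ε / 9 ^ (k + 1) * (9 ^ (k + 1) * (pairs (k + 1) N).card) := by
        have := min_le_right ε (ε / 9 ^ (k + 1))
        gcongr
    _ = _ := by field_simp

end Pool.Agent.Helper82K9.RQ
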